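import Pool.Agent.helper14.NR.E4c.PN2

/-!
Generated: certificates.
-/

namespace Pool.Agent.helper14.NR.E4c

open Pool.Agent.helper31.IA (Z)
open Pool.Agent.helper31.IX (Op XOps runX Cov CovD cov_split covD_split)
open Pool.Agent.helper31.IC (TD)
open Pool.Agent.helper63.RG (reloc)
open Pool.Agent.helper63.NF hiding TD
open Pool.Agent.helper14.CF (xE covD_E)
open Pool.Agent.helper14.NR (share)

mutual
theorem A2_c0_t8 : CovD 1 gA2 [(233646325760, 13744209920), (467292127232, 27487895552), (343597383680, 343597383680)] :=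
  covD_E kA2_eq (.n 0 (.n 2 (.n 0 (.n 2 (.l 0) (.l 0)) (.n 2 (.l 0) (.l 0))) (.n 2 (.l 0) (.l 0))) (.n 2 (.n 2 (.l 0) (.l 0)) (.n 2 (.l 0) (.l 0))))
    [(233646325760, 13744209920), (467292127232, 27487895552), (343597383680, 343597383680)] rfl (by decide +kernel)
theorem A2_c0_t9 : CovD 1 gA2 [(233646325760, 13744209920), (467292127232, 27487895552), (1030792151040, 343597383680)] :=
  covD_E kA2_eq (.n 2 (.n 0 (.n 2 (.l 0) (.l 0)) (.n 2 (.l 0) (.l 0))) (.n 2 (.n 0 (.l 0) (.l 0)) (.l 0)))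
    [(233646325760, 13744209920), (467292127232, 27487895552), (1030792151040, 343597383680)] rfl (by decide +kernel)
end

mutual
theorem A2_c0_t10 : CovD 1 gA2 [(233646325760, 13744209920), (467292127232, 27487895552), (2061584302080, 687194767360)] :=
  covD_E kA2_eq (.n 0 (.n 2 (.n 2 (.l 0) (.l 0)) (.n 1 (.l 0) (.l 0))) (.n 2 (.n 2 (.l 0) (.l 0)) (.n 0 (.l 0) (.l 0))))
    [(233646325760, 13744209920), (467292127232, 27487895552), (2061584302080, 687194767360)] rfl (by decide +kernel)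
theorem A2_c0_t11 : CovD 1 gA2 [(233646325760, 13744209920), (467292127232, 27487895552), (4123168604160, 1374389534720)] :=
  covD_E kA2_eq (.n 0 (.n 2 (.n 2 (.l 0) (.l 0)) (.n 2 (.n 2 (.l 0) (.l 0)) (.l 1))) (.n 2 (.n 2 (.l 0) (.l 0)) (.n 2 (.l 0) (.l 0))))
    [(233646325760, 13744209920), (467292127232, 27487895552), (4123168604160, 1374389534720)] rfl (by decide +kernel)
end

mutual
theorem A2_c0_t13 : CovD 1 gA2 [(233646325760, 13744209920), (522267918336, 27487895552), (1374389534720, 1374389534720)] :=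
  covD_E kA2_eq (.n 2 (.n 2 (.n 2 (.n 2 (.l 0) (.l 0)) (.n 2 (.l 0) (.l 0))) (.n 0 (.n 2 (.l 0) (.l 0)) (.n 2 (.l 0) (.l 0)))) (.n 2 (.n 0 (.n 2 (.l 0) (.l 0)) (.n 2 (.l 0) (.l 0))) (.n 2 (.l 0) (.l 0))))
    [(233646325760, 13744209920), (522267918336, 27487895552), (1374389534720, 1374389534720)] rfl (by decide +kernel)
theorem A2_c0_t14 : CovD 1 gA2 [(233646325760, 13744209920), (522267918336, 27487895552), (4123168604160, 1374389534720)] :=
  covD_E kA2_eq (.n 2 (.n 0 (.n 2 (.l 0) (.l 0)) (.n 2 (.l 0) (.l 0))) (.n 2 (.n 2 (.l 0) (.l 0)) (.n 0 (.l 1) (.l 0))))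
    [(233646325760, 13744209920), (522267918336, 27487895552), (4123168604160, 1374389534720)] rfl (by decide +kernel)
end

mutual
theorem A2_c0_t15 : CovD 1 gA2 [(233646325760, 13744209920), (494780022784, 54975791104), (8246337208320, 2748779069440)] :=
  covD_E kA2_eq (.n 2 (.n 2 (.n 0 (.l 1) (.l 1)) (.l 1)) (.l 1))
    [(233646325760, 13744209920), (494780022784, 54975791104), (8246337208320, 2748779069440)] rfl (by decide +kernel)
theorem A2_c0_t20 : CovD 1 gA2 [(261134745600, 13744209920), (467292127232, 27487895552), (687194767360, 687194767360)] :=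
  covD_E kA2_eq (.n 2 (.n 2 (.n 2 (.l 0) (.n 0 (.l 0) (.l 0))) (.n 0 (.n 2 (.l 0) (.l 0)) (.n 2 (.l 0) (.l 0)))) (.n 2 (.n 2 (.l 0) (.l 0)) (.n 0 (.l 0) (.l 0))))
    [(261134745600, 13744209920), (467292127232, 27487895552), (687194767360, 687194767360)] rfl (by decide +kernel)
end

mutual
theorem A2_c0_t21 : CovD 1 gA2 [(261134745600, 13744209920), (467292127232, 27487895552), (2061584302080, 687194767360)] :=
  covD_E kA2_eq (.n 2 (.n 0 (.n 2 (.l 0) (.l 0)) (.n 2 (.l 0) (.l 0))) (.n 2 (.l 0) (.l 0)))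
    [(261134745600, 13744209920), (467292127232, 27487895552), (2061584302080, 687194767360)] rfl (by decide +kernel)
theorem A2_c0_t22 : CovD 1 gA2 [(261134745600, 13744209920), (467292127232, 27487895552), (4123168604160, 1374389534720)] :=
  covD_E kA2_eq (.n 2 (.n 0 (.n 2 (.l 0) (.l 0)) (.n 2 (.l 0) (.l 0))) (.n 2 (.n 0 (.l 0) (.l 0)) (.l 0)))
    [(261134745600, 13744209920), (467292127232, 27487895552), (4123168604160, 1374389534720)] rfl (by decide +kernel)
end

mutual
theorem A2_c0_t24 : CovD 1 gA2 [(261134745600, 13744209920), (522267918336, 27487895552), (1374389534720, 1374389534720)] :=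
  covD_E kA2_eq (.n 2 (.n 0 (.n 2 (.n 2 (.l 0) (.l 0)) (.n 2 (.l 0) (.l 0))) (.n 2 (.n 2 (.l 0) (.l 0)) (.n 2 (.l 0) (.l 0)))) (.n 2 (.n 2 (.n 0 (.l 0) (.l 0)) (.l 0)) (.n 2 (.l 0) (.l 0))))
    [(261134745600, 13744209920), (522267918336, 27487895552), (1374389534720, 1374389534720)] rfl (by decide +kernel)
theorem A2_c0_t25 : CovD 1 gA2 [(261134745600, 13744209920), (522267918336, 27487895552), (4123168604160, 1374389534720)] :=
  covD_E kA2_eq (.n 2 (.n 0 (.n 2 (.l 0) (.l 0)) (.n 2 (.l 0) (.l 0))) (.n 2 (.l 0) (.l 0)))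
    [(261134745600, 13744209920), (522267918336, 27487895552), (4123168604160, 1374389534720)] rfl (by decide +kernel)
end

mutual
theorem A2_c0_t26 : CovD 1 gA2 [(261134745600, 13744209920), (494780022784, 54975791104), (8246337208320, 2748779069440)] :=
  covD_E kA2_eq (.n 2 (.n 2 (.n 1 (.n 0 (.l 0) (.l 0)) (.l 1)) (.l 1)) (.l 1))
    [(261134745600, 13744209920), (494780022784, 54975791104), (8246337208320, 2748779069440)] rfl (by decide +kernel)
theorem A2_c0_t31 : CovD 1 gA2 [(233646325760, 13744209920), (577243709440, 27487895552), (1374389534720, 1374389534720)] :=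
  covD_E kA2_eq (.n 2 (.n 0 (.n 2 (.n 2 (.l 0) (.l 0)) (.n 2 (.l 0) (.l 0))) (.n 2 (.n 2 (.l 0) (.l 0)) (.n 2 (.l 0) (.l 0)))) (.n 2 (.n 2 (.l 0) (.l 0)) (.n 0 (.l 0) (.l 0))))
    [(233646325760, 13744209920), (577243709440, 27487895552), (1374389534720, 1374389534720)] rfl (by decide +kernel)
end

mutual
theorem A2_c0_t32 : CovD 1 gA2 [(233646325760, 13744209920), (577243709440, 27487895552), (4123168604160, 1374389534720)] :=
  covD_E kA2_eq (.n 2 (.n 0 (.n 2 (.l 0) (.l 0)) (.n 2 (.l 0) (.l 0))) (.n 2 (.n 2 (.l 0) (.l 0)) (.l 1)))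
    [(233646325760, 13744209920), (577243709440, 27487895552), (4123168604160, 1374389534720)] rfl (by decide +kernel)
theorem A2_c0_t33 : CovD 1 gA2 [(233646325760, 13744209920), (632219500544, 27487895552), (2748779069440, 2748779069440)] :=
  covD_E kA2_eq (.n 2 (.n 2 (.n 2 (.n 0 (.n 2 (.l 0) (.l 0)) (.n 2 (.l 0) (.l 0))) (.n 2 (.n 0 (.l 0) (.l 0)) (.l 0))) (.n 2 (.n 2 (.l 0) (.l 0)) (.n 0 (.l 0) (.l 0)))) (.n 2 (.n 2 (.n 0 (.l 0) (.l 0)) (.l 0)) (.n 2 (.l 0) (.l 1))))
    [(233646325760, 13744209920), (632219500544, 27487895552), (2748779069440, 2748779069440)] rfl (by decide +kernel)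
end

mutual
theorem A2_c0_t36 : CovD 1 gA2 [(261134745600, 13744209920), (577243709440, 27487895552), (1374389534720, 1374389534720)] :=
  covD_E kA2_eq (.n 2 (.n 0 (.n 2 (.n 2 (.l 0) (.l 0)) (.n 2 (.l 0) (.l 0))) (.n 2 (.n 2 (.l 0) (.l 0)) (.n 2 (.l 0) (.l 0)))) (.n 2 (.n 2 (.l 0) (.l 0)) (.n 0 (.l 0) (.l 0))))
    [(261134745600, 13744209920), (577243709440, 27487895552), (1374389534720, 1374389534720)] rfl (by decide +kernel)
theorem A2_c0_t37 : CovD 1 gA2 [(261134745600, 13744209920), (577243709440, 27487895552), (4123168604160, 1374389534720)] :=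
  covD_E kA2_eq (.n 2 (.n 2 (.n 0 (.l 0) (.l 0)) (.l 0)) (.n 2 (.l 0) (.l 0)))
    [(261134745600, 13744209920), (577243709440, 27487895552), (4123168604160, 1374389534720)] rfl (by decide +kernel)
end

mutual
theorem A2_c0_t38 : CovD 1 gA2 [(261134745600, 13744209920), (632219500544, 27487895552), (2748779069440, 2748779069440)] :=
  covD_E kA2_eq (.n 2 (.n 2 (.n 2 (.n 2 (.l 0) (.n 0 (.l 0) (.l 0))) (.n 2 (.n 0 (.l 0) (.l 0)) (.l 0))) (.n 2 (.n 2 (.l 0) (.l 0)) (.n 0 (.l 0) (.l 0)))) (.n 2 (.n 2 (.n 0 (.l 0) (.l 0)) (.l 0)) (.n 0 (.l 0) (.l 0))))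
    [(261134745600, 13744209920), (632219500544, 27487895552), (2748779069440, 2748779069440)] rfl (by decide +kernel)
theorem A2_c0_t39 : CovD 1 gA2 [(247390535680, 27488419840), (604731604992, 54975791104), (8246337208320, 2748779069440)] :=
  covD_E kA2_eq (.n 2 (.n 2 (.n 0 (.l 1) (.l 1)) (.l 1)) (.n 0 (.l 1) (.l 1)))
    [(247390535680, 27488419840), (604731604992, 54975791104), (8246337208320, 2748779069440)] rfl (by decide +kernel)
end

mutual
theorem A2_c0_t44 : CovD 1 gA2 [(233646325760, 13744209920), (687195291648, 27487895552), (2748779069440, 2748779069440)] :=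
  covD_E kA2_eq (.n 2 (.n 2 (.n 2 (.n 2 (.l 0) (.l 0)) (.n 2 (.l 0) (.l 0))) (.n 2 (.n 2 (.l 0) (.l 0)) (.n 0 (.l 0) (.l 0)))) (.n 2 (.n 2 (.n 0 (.l 0) (.l 0)) (.l 0)) (.n 2 (.l 0) (.l 0))))
    [(233646325760, 13744209920), (687195291648, 27487895552), (2748779069440, 2748779069440)] rfl (by decide +kernel)
theorem A2_c0_t45 : CovD 1 gA2 [(233646325760, 13744209920), (742171082752, 27487895552), (2748779069440, 2748779069440)] :=
  covD_E kA2_eq (.n 2 (.n 2 (.n 2 (.n 2 (.l 0) (.l 0)) (.n 2 (.l 0) (.l 0))) (.n 2 (.n 2 (.l 0) (.l 0)) (.n 0 (.l 0) (.l 0)))) (.n 2 (.n 2 (.n 0 (.l 0) (.l 0)) (.l 0)) (.n 0 (.l 0) (.l 0))))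
    [(233646325760, 13744209920), (742171082752, 27487895552), (2748779069440, 2748779069440)] rfl (by decide +kernel)
end

mutual
theorem A2_c0_t47 : CovD 1 gA2 [(226774220800, 6872104960), (824634769408, 54975791104), (2748779069440, 2748779069440)] :=
  covD_E kA2_eq (.n 2 (.n 2 (.n 2 (.n 2 (.l 0) (.l 0)) (.n 2 (.l 0) (.l 0))) (.n 2 (.n 2 (.l 0) (.l 0)) (.n 0 (.l 0) (.l 0)))) (.n 2 (.n 2 (.n 0 (.l 0) (.l 0)) (.l 0)) (.n 1 (.l 0) (.l 0))))
    [(226774220800, 6872104960), (824634769408, 54975791104), (2748779069440, 2748779069440)] rfl (by decide +kernel)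
theorem A2_c0_t48 : CovD 1 gA2 [(240518430720, 6872104960), (824634769408, 54975791104), (2748779069440, 2748779069440)] :=
  covD_E kA2_eq (.n 2 (.n 2 (.n 2 (.n 2 (.l 0) (.l 0)) (.n 2 (.l 0) (.l 0))) (.n 2 (.n 2 (.l 0) (.l 0)) (.n 1 (.l 0) (.l 0)))) (.n 2 (.n 2 (.n 0 (.l 0) (.l 0)) (.l 0)) (.n 1 (.l 0) (.l 0))))
    [(240518430720, 6872104960), (824634769408, 54975791104), (2748779069440, 2748779069440)] rfl (by decide +kernel)
end

mutual
theorem A2_c0_t49 : CovD 1 gA2 [(233646325760, 13744209920), (769658978304, 109951582208), (8246337208320, 2748779069440)] :=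
  covD_E kA2_eq (.n 2 (.n 2 (.n 1 (.l 1) (.n 0 (.l 1) (.l 1))) (.l 1)) (.n 0 (.l 1) (.l 1)))
    [(233646325760, 13744209920), (769658978304, 109951582208), (8246337208320, 2748779069440)] rfl (by decide +kernel)
theorem A2_c0_t53 : CovD 1 gA2 [(261134745600, 13744209920), (687195291648, 27487895552), (2748779069440, 2748779069440)] :=
  covD_E kA2_eq (.n 2 (.n 2 (.n 2 (.n 2 (.l 0) (.l 0)) (.n 2 (.l 0) (.l 0))) (.n 2 (.n 2 (.l 0) (.l 0)) (.n 0 (.l 0) (.l 0)))) (.n 2 (.n 2 (.n 0 (.l 0) (.l 0)) (.l 0)) (.n 0 (.l 0) (.l 0))))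
    [(261134745600, 13744209920), (687195291648, 27487895552), (2748779069440, 2748779069440)] rfl (by decide +kernel)
end

mutual
theorem A2_c0_t54 : CovD 1 gA2 [(261134745600, 13744209920), (742171082752, 27487895552), (2748779069440, 2748779069440)] :=
  covD_E kA2_eq (.n 2 (.n 2 (.n 2 (.n 2 (.l 0) (.l 0)) (.n 2 (.l 0) (.l 0))) (.n 2 (.n 2 (.l 0) (.l 0)) (.n 0 (.l 0) (.l 0)))) (.n 2 (.n 2 (.n 0 (.l 0) (.l 0)) (.l 0)) (.n 0 (.l 0) (.l 0))))
    [(261134745600, 13744209920), (742171082752, 27487895552), (2748779069440, 2748779069440)] rfl (by decide +kernel)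
theorem A2_c0_t55 : CovD 1 gA2 [(261134745600, 13744209920), (714683187200, 54975791104), (8246337208320, 2748779069440)] :=
  covD_E kA2_eq (.n 2 (.n 2 (.n 0 (.l 1) (.l 1)) (.l 1)) (.l 1))
    [(261134745600, 13744209920), (714683187200, 54975791104), (8246337208320, 2748779069440)] rfl (by decide +kernel)
end

mutual
theorem A2_c0_t58 : CovD 1 gA2 [(261134745600, 13744209920), (797146873856, 27487895552), (2748779069440, 2748779069440)] :=
  covD_E kA2_eq (.n 2 (.n 2 (.n 2 (.n 2 (.l 0) (.l 0)) (.n 2 (.l 0) (.l 0))) (.n 2 (.n 2 (.l 0) (.l 0)) (.n 0 (.l 0) (.l 0)))) (.n 2 (.n 2 (.n 0 (.l 0) (.l 0)) (.l 0)) (.n 0 (.l 0) (.l 0))))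
    [(261134745600, 13744209920), (797146873856, 27487895552), (2748779069440, 2748779069440)] rfl (by decide +kernel)
theorem A2_c0_t59 : CovD 1 gA2 [(261134745600, 13744209920), (852122664960, 27487895552), (2748779069440, 2748779069440)] :=
  covD_E kA2_eq (.n 2 (.n 2 (.n 2 (.n 2 (.l 0) (.l 0)) (.n 2 (.l 0) (.l 0))) (.n 2 (.n 2 (.l 0) (.l 0)) (.n 0 (.l 0) (.l 0)))) (.n 2 (.n 2 (.n 0 (.l 0) (.l 0)) (.l 0)) (.n 0 (.l 0) (.l 0))))
    [(261134745600, 13744209920), (852122664960, 27487895552), (2748779069440, 2748779069440)] rfl (by decide +kernel)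
end

mutual
theorem A2_c0_t60 : CovD 1 gA2 [(261134745600, 13744209920), (824634769408, 54975791104), (8246337208320, 2748779069440)] :=
  covD_E kA2_eq (.n 2 (.n 2 (.n 2 (.n 0 (.l 0) (.l 0)) (.l 1)) (.l 1)) (.l 1))
    [(261134745600, 13744209920), (824634769408, 54975791104), (8246337208320, 2748779069440)] rfl (by decide +kernel)
theorem B2_c0_t1 : CovD 1 gB2 [(247390535680, 27488419840), (549755813888, 109951582208), (54975791104, 54975791104)] :=
  covD_E kB2_eq (.n 1 (.n 2 (.n 2 (.l 1) (.n 0 (.l 1) (.l 1))) (.n 0 (.n 2 (.l 1) (.l 1)) (.n 1 (.l 1) (.l 1)))) (.n 2 (.n 2 (.l 1) (.l 1)) (.n 0 (.l 1) (.l 1))))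
    [(247390535680, 27488419840), (549755813888, 109951582208), (54975791104, 54975791104)] rfl (by decide +kernel)
end

mutual
theorem B2_c0_t2 : CovD 1 gB2 [(247390535680, 27488419840), (769658978304, 109951582208), (54975791104, 54975791104)] :=
  covD_E kB2_eq (.n 0 (.n 2 (.n 2 (.l 1) (.l 1)) (.n 1 (.l 1) (.l 1))) (.n 1 (.n 2 (.l 1) (.l 1)) (.n 2 (.l 1) (.l 1))))
    [(247390535680, 27488419840), (769658978304, 109951582208), (54975791104, 54975791104)] rfl (by decide +kernel)
theorem D2_c0_t2 : CovD 1 gD2 [(247390535680, 27488419840), (494780022784, 54975791104), (863554764800, 863554764800)] :=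
  covD_E kD2_eq (.n 2 (.n 2 (.n 2 (.l 0) (.n 0 (.l 0) (.l 0))) (.n 0 (.n 2 (.l 0) (.l 0)) (.n 1 (.l 0) (.l 0)))) (.n 0 (.n 2 (.n 2 (.l 0) (.l 0)) (.n 2 (.l 0) (.l 0))) (.n 2 (.n 2 (.l 0) (.l 0)) (.n 2 (.l 0) (.l 0)))))
    [(247390535680, 27488419840), (494780022784, 54975791104), (863554764800, 863554764800)] rfl (by decide +kernel)
end

mutual
theorem D2_c0_t3 : CovD 1 gD2 [(247390535680, 27488419840), (604731604992, 54975791104), (863554764800, 863554764800)] :=
  covD_E kD2_eq (.n 2 (.n 2 (.n 2 (.l 0) (.l 0)) (.n 2 (.l 0) (.n 0 (.l 0) (.l 0)))) (.n 0 (.n 2 (.n 2 (.l 0) (.l 0)) (.n 2 (.l 0) (.l 0))) (.n 2 (.n 2 (.l 0) (.l 0)) (.n 2 (.l 0) (.l 0)))))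
    [(247390535680, 27488419840), (604731604992, 54975791104), (863554764800, 863554764800)] rfl (by decide +kernel)
theorem D2_c0_t5 : CovD 1 gD2 [(247390535680, 27488419840), (714683187200, 54975791104), (863554764800, 863554764800)] :=
  covD_E kD2_eq (.n 2 (.n 2 (.n 2 (.l 0) (.l 0)) (.n 0 (.n 0 (.l 0) (.l 0)) (.n 1 (.l 0) (.l 0)))) (.n 0 (.n 2 (.n 1 (.l 0) (.l 0)) (.n 2 (.l 0) (.l 0))) (.n 2 (.n 2 (.l 0) (.l 0)) (.n 2 (.l 0) (.l 0)))))
    [(247390535680, 27488419840), (714683187200, 54975791104), (863554764800, 863554764800)] rfl (by decide +kernel)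
end

mutual
theorem D2_c0_t6 : CovD 1 gD2 [(247390535680, 27488419840), (824634769408, 54975791104), (863554764800, 863554764800)] :=
  covD_E kD2_eq (.n 0 (.n 2 (.n 1 (.n 2 (.l 0) (.l 0)) (.n 2 (.l 0) (.l 0))) (.n 2 (.n 2 (.l 0) (.l 0)) (.n 2 (.l 0) (.l 0)))) (.n 2 (.n 2 (.n 1 (.l 0) (.l 0)) (.n 2 (.l 0) (.l 0))) (.n 2 (.n 2 (.l 0) (.l 0)) (.n 2 (.l 0) (.l 0)))))
    [(247390535680, 27488419840), (824634769408, 54975791104), (863554764800, 863554764800)] rfl (by decide +kernel)
theorem E2_c0_t2 : CovD 1 gE2 [(247390535680, 27488419840), (494780022784, 54975791104), (863554764800, 863554764800)] :=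
  covD_E kE2_eq (.n 2 (.n 2 (.l 1) (.l 1)) (.n 2 (.n 1 (.n 2 (.l 1) (.n 0 (.n 2 (.l 1) (.n 0 (.l 0) (.l 0))) (.l 0))) (.n 2 (.l 1) (.n 0 (.n 0 (.n 2 (.l 1) (.l 0)) (.l 0)) (.l 0)))) (.n 0 (.n 2 (.l 0) (.l 0)) (.n 2 (.l 0) (.l 0)))))
    [(247390535680, 27488419840), (494780022784, 54975791104), (863554764800, 863554764800)] rfl (by decide +kernel)
end

mutual
theorem E2_c0_t3 : CovD 1 gE2 [(247390535680, 27488419840), (604731604992, 54975791104), (863554764800, 863554764800)] :=
  covD_E kE2_eq (.n 2 (.n 2 (.l 1) (.l 1)) (.n 0 (.n 2 (.n 2 (.l 1) (.n 2 (.l 0) (.l 0))) (.n 2 (.l 0) (.l 0))) (.n 2 (.n 2 (.l 1) (.l 0)) (.n 2 (.l 0) (.l 0)))))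
    [(247390535680, 27488419840), (604731604992, 54975791104), (863554764800, 863554764800)] rfl (by decide +kernel)
theorem E2_c0_t5 : CovD 1 gE2 [(247390535680, 27488419840), (769658978304, 109951582208), (431777382400, 431777382400)] :=
  covD_E kE2_eq (.n 2 (.l 1) (.n 0 (.l 1) (.l 1)))
    [(247390535680, 27488419840), (769658978304, 109951582208), (431777382400, 431777382400)] rfl (by decide +kernel)
end

theorem E2_c0_t6 : CovD 1 gE2 [(247390535680, 27488419840), (769658978304, 109951582208), (1295332147200, 431777382400)] :=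
  covD_E kE2_eq (.n 0 (.n 1 (.n 2 (.n 2 (.l 1) (.l 0)) (.n 2 (.l 0) (.l 0))) (.n 2 (.n 2 (.l 1) (.l 0)) (.n 2 (.l 0) (.l 0)))) (.n 2 (.n 2 (.l 1) (.n 1 (.l 0) (.l 1))) (.n 1 (.n 2 (.l 0) (.l 0)) (.n 2 (.l 0) (.l 0)))))
    [(247390535680, 27488419840), (769658978304, 109951582208), (1295332147200, 431777382400)] rfl (by decide +kernel)

theorem A2_c0_t7 : CovD 1 gA2 [(233646325760, 13744209920), (467292127232, 27487895552), (687194767360, 687194767360)] :=
  covD_split 2 (by decide +kernel) A2_c0_t8 A2_c0_t9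

theorem A2_c0_t6 : CovD 1 gA2 [(233646325760, 13744209920), (467292127232, 27487895552), (1374389534720, 1374389534720)] :=
  covD_split 2 (by decide +kernel) A2_c0_t7 A2_c0_t10

theorem A2_c0_t5 : CovD 1 gA2 [(233646325760, 13744209920), (467292127232, 27487895552), (2748779069440, 2748779069440)] :=
  covD_split 2 (by decide +kernel) A2_c0_t6 A2_c0_t11

theorem A2_c0_t12 : CovD 1 gA2 [(233646325760, 13744209920), (522267918336, 27487895552), (2748779069440, 2748779069440)] :=
  covD_split 2 (by decide +kernel) A2_c0_t13 A2_c0_t14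

theorem A2_c0_t4 : CovD 1 gA2 [(233646325760, 13744209920), (494780022784, 54975791104), (2748779069440, 2748779069440)] :=
  covD_split 1 (by decide +kernel) A2_c0_t5 A2_c0_t12

theorem A2_c0_t3 : CovD 1 gA2 [(233646325760, 13744209920), (494780022784, 54975791104), (5497558138880, 5497558138880)] :=
  covD_split 2 (by decide +kernel) A2_c0_t4 A2_c0_t15

theorem A2_c0_t19 : CovD 1 gA2 [(261134745600, 13744209920), (467292127232, 27487895552), (1374389534720, 1374389534720)] :=
  covD_split 2 (by decide +kernel) A2_c0_t20 A2_c0_t21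

theorem A2_c0_t18 : CovD 1 gA2 [(261134745600, 13744209920), (467292127232, 27487895552), (2748779069440, 2748779069440)] :=
  covD_split 2 (by decide +kernel) A2_c0_t19 A2_c0_t22

theorem A2_c0_t23 : CovD 1 gA2 [(261134745600, 13744209920), (522267918336, 27487895552), (2748779069440, 2748779069440)] :=
  covD_split 2 (by decide +kernel) A2_c0_t24 A2_c0_t25

theorem A2_c0_t17 : CovD 1 gA2 [(261134745600, 13744209920), (494780022784, 54975791104), (2748779069440, 2748779069440)] :=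
  covD_split 1 (by decide +kernel) A2_c0_t18 A2_c0_t23

theorem A2_c0_t16 : CovD 1 gA2 [(261134745600, 13744209920), (494780022784, 54975791104), (5497558138880, 5497558138880)] :=
  covD_split 2 (by decide +kernel) A2_c0_t17 A2_c0_t26

theorem A2_c0_t2 : CovD 1 gA2 [(247390535680, 27488419840), (494780022784, 54975791104), (5497558138880, 5497558138880)] :=
  covD_split 0 (by decide +kernel) A2_c0_t3 A2_c0_t16

theorem A2_c0_t30 : CovD 1 gA2 [(233646325760, 13744209920), (577243709440, 27487895552), (2748779069440, 2748779069440)] :=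
  covD_split 2 (by decide +kernel) A2_c0_t31 A2_c0_t32

theorem A2_c0_t29 : CovD 1 gA2 [(233646325760, 13744209920), (604731604992, 54975791104), (2748779069440, 2748779069440)] :=
  covD_split 1 (by decide +kernel) A2_c0_t30 A2_c0_t33

theorem A2_c0_t35 : CovD 1 gA2 [(261134745600, 13744209920), (577243709440, 27487895552), (2748779069440, 2748779069440)] :=
  covD_split 2 (by decide +kernel) A2_c0_t36 A2_c0_t37

theorem A2_c0_t34 : CovD 1 gA2 [(261134745600, 13744209920), (604731604992, 54975791104), (2748779069440, 2748779069440)] :=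
  covD_split 1 (by decide +kernel) A2_c0_t35 A2_c0_t38

theorem A2_c0_t28 : CovD 1 gA2 [(247390535680, 27488419840), (604731604992, 54975791104), (2748779069440, 2748779069440)] :=
  covD_split 0 (by decide +kernel) A2_c0_t29 A2_c0_t34

theorem A2_c0_t27 : CovD 1 gA2 [(247390535680, 27488419840), (604731604992, 54975791104), (5497558138880, 5497558138880)] :=
  covD_split 2 (by decide +kernel) A2_c0_t28 A2_c0_t39

theorem A2_c0_t1 : CovD 1 gA2 [(247390535680, 27488419840), (549755813888, 109951582208), (5497558138880, 5497558138880)] :=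
  covD_split 1 (by decide +kernel) A2_c0_t2 A2_c0_t27

theorem A2_c0_t43 : CovD 1 gA2 [(233646325760, 13744209920), (714683187200, 54975791104), (2748779069440, 2748779069440)] :=
  covD_split 1 (by decide +kernel) A2_c0_t44 A2_c0_t45

theorem A2_c0_t46 : CovD 1 gA2 [(233646325760, 13744209920), (824634769408, 54975791104), (2748779069440, 2748779069440)] :=
  covD_split 0 (by decide +kernel) A2_c0_t47 A2_c0_t48

theorem A2_c0_t42 : CovD 1 gA2 [(233646325760, 13744209920), (769658978304, 109951582208), (2748779069440, 2748779069440)] :=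
  covD_split 1 (by decide +kernel) A2_c0_t43 A2_c0_t46

theorem A2_c0_t41 : CovD 1 gA2 [(233646325760, 13744209920), (769658978304, 109951582208), (5497558138880, 5497558138880)] :=
  covD_split 2 (by decide +kernel) A2_c0_t42 A2_c0_t49

theorem A2_c0_t52 : CovD 1 gA2 [(261134745600, 13744209920), (714683187200, 54975791104), (2748779069440, 2748779069440)] :=
  covD_split 1 (by decide +kernel) A2_c0_t53 A2_c0_t54

theorem A2_c0_t51 : CovD 1 gA2 [(261134745600, 13744209920), (714683187200, 54975791104), (5497558138880, 5497558138880)] :=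
  covD_split 2 (by decide +kernel) A2_c0_t52 A2_c0_t55

theorem A2_c0_t57 : CovD 1 gA2 [(261134745600, 13744209920), (824634769408, 54975791104), (2748779069440, 2748779069440)] :=
  covD_split 1 (by decide +kernel) A2_c0_t58 A2_c0_t59

theorem A2_c0_t56 : CovD 1 gA2 [(261134745600, 13744209920), (824634769408, 54975791104), (5497558138880, 5497558138880)] :=
  covD_split 2 (by decide +kernel) A2_c0_t57 A2_c0_t60

theorem A2_c0_t50 : CovD 1 gA2 [(261134745600, 13744209920), (769658978304, 109951582208), (5497558138880, 5497558138880)] :=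
  covD_split 1 (by decide +kernel) A2_c0_t51 A2_c0_t56

theorem A2_c0_t40 : CovD 1 gA2 [(247390535680, 27488419840), (769658978304, 109951582208), (5497558138880, 5497558138880)] :=
  covD_split 0 (by decide +kernel) A2_c0_t41 A2_c0_t50

theorem A2_c0 : CovD 1 gA2 [(247390535680, 27488419840), (659707396096, 219903164416), (5497558138880, 5497558138880)] :=
  covD_split 1 (by decide +kernel) A2_c0_t1 A2_c0_t40

theorem B2_c0 : CovD 1 gB2 [(247390535680, 27488419840), (659707396096, 219903164416), (54975791104, 54975791104)] :=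
  covD_split 1 (by decide +kernel) B2_c0_t1 B2_c0_t2

theorem D2_c0_t1 : CovD 1 gD2 [(247390535680, 27488419840), (549755813888, 109951582208), (863554764800, 863554764800)] :=
  covD_split 1 (by decide +kernel) D2_c0_t2 D2_c0_t3

theorem D2_c0_t4 : CovD 1 gD2 [(247390535680, 27488419840), (769658978304, 109951582208), (863554764800, 863554764800)] :=
  covD_split 1 (by decide +kernel) D2_c0_t5 D2_c0_t6

theorem D2_c0 : CovD 1 gD2 [(247390535680, 27488419840), (659707396096, 219903164416), (863554764800, 863554764800)] :=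
  covD_split 1 (by decide +kernel) D2_c0_t1 D2_c0_t4

theorem E2_c0_t1 : CovD 1 gE2 [(247390535680, 27488419840), (549755813888, 109951582208), (863554764800, 863554764800)] :=
  covD_split 1 (by decide +kernel) E2_c0_t2 E2_c0_t3

theorem E2_c0_t4 : CovD 1 gE2 [(247390535680, 27488419840), (769658978304, 109951582208), (863554764800, 863554764800)] :=
  covD_split 2 (by decide +kernel) E2_c0_t5 E2_c0_t6

theorem E2_c0 : CovD 1 gE2 [(247390535680, 27488419840), (659707396096, 219903164416), (863554764800, 863554764800)] :=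
  covD_split 1 (by decide +kernel) E2_c0_t1 E2_c0_t4

end Pool.Agent.helper14.NR.E4c
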