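import Pool.Agent.helper14.NR.E4c.PN3

/-!
Generated: certificates.
-/

namespace Pool.Agent.helper14.NR.E4c

open Pool.Agent.helper31.IA (Z)
open Pool.Agent.helper31.IX (Op XOps runX Cov CovD cov_split covD_split)
open Pool.Agent.helper31.IC (TD)
open Pool.Agent.helper63.RG (reloc)
open Pool.Agent.helper63.NF hiding TD
open Pool.Agent.helper14.CF (xE covD_E)
open Pool.Agent.helper14.NR (share)

mutual
theorem A3_c0_t8 : CovD 1 gA3 [(233646325760, 13744209920), (453548179456, 13743947776), (687194767360, 687194767360)] :=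
  covD_E kA3_eq (.n 2 (.n 0 (.n 2 (.n 2 (.n 2 (.l 0) (.l 0)) (.n 0 (.l 0) (.l 0))) (.n 2 (.l 0) (.l 0))) (.n 2 (.n 2 (.n 0 (.l 0) (.l 0)) (.l 0)) (.n 2 (.l 0) (.l 0)))) (.n 2 (.n 2 (.l 0) (.l 0)) (.n 0 (.l 0) (.l 0))))
    [(233646325760, 13744209920), (453548179456, 13743947776), (687194767360, 687194767360)] rfl (by decide +kernel)
theorem A3_c0_t9 : CovD 1 gA3 [(233646325760, 13744209920), (481036075008, 13743947776), (687194767360, 687194767360)] :=
  covD_E kA3_eq (.n 2 (.n 0 (.n 2 (.n 2 (.l 0) (.l 0)) (.n 2 (.l 0) (.l 0))) (.n 2 (.n 2 (.l 0) (.l 0)) (.n 2 (.l 0) (.l 0)))) (.n 2 (.n 2 (.l 0) (.l 0)) (.n 0 (.l 0) (.l 0))))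
    [(233646325760, 13744209920), (481036075008, 13743947776), (687194767360, 687194767360)] rfl (by decide +kernel)
end

mutual
theorem A3_c0_t10 : CovD 1 gA3 [(233646325760, 13744209920), (467292127232, 27487895552), (2061584302080, 687194767360)] :=
  covD_E kA3_eq (.n 0 (.n 2 (.n 2 (.l 0) (.l 0)) (.n 1 (.l 0) (.l 0))) (.n 2 (.n 2 (.n 0 (.l 0) (.l 0)) (.l 0)) (.n 1 (.l 0) (.l 0))))
    [(233646325760, 13744209920), (467292127232, 27487895552), (2061584302080, 687194767360)] rfl (by decide +kernel)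
theorem A3_c0_t11 : CovD 1 gA3 [(233646325760, 13744209920), (467292127232, 27487895552), (4123168604160, 1374389534720)] :=
  covD_E kA3_eq (.n 0 (.n 2 (.n 2 (.n 0 (.l 0) (.l 0)) (.n 2 (.l 0) (.l 0))) (.n 2 (.n 2 (.l 0) (.l 1)) (.l 1))) (.n 2 (.n 2 (.n 0 (.l 0) (.l 0)) (.l 0)) (.n 2 (.l 0) (.l 0))))
    [(233646325760, 13744209920), (467292127232, 27487895552), (4123168604160, 1374389534720)] rfl (by decide +kernel)
end

mutual
theorem A3_c0_t12 : CovD 1 gA3 [(233646325760, 13744209920), (467292127232, 27487895552), (8246337208320, 2748779069440)] :=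
  covD_E kA3_eq (.n 2 (.n 2 (.n 2 (.l 1) (.l 1)) (.l 1)) (.l 1))
    [(233646325760, 13744209920), (467292127232, 27487895552), (8246337208320, 2748779069440)] rfl (by decide +kernel)
theorem A3_c0_t17 : CovD 1 gA3 [(233646325760, 13744209920), (508523970560, 13743947776), (687194767360, 687194767360)] :=
  covD_E kA3_eq (.n 2 (.n 2 (.n 0 (.n 2 (.l 0) (.l 0)) (.n 2 (.l 0) (.l 0))) (.n 2 (.n 0 (.l 0) (.l 0)) (.l 0))) (.n 2 (.n 2 (.l 0) (.l 0)) (.n 0 (.l 0) (.l 0))))
    [(233646325760, 13744209920), (508523970560, 13743947776), (687194767360, 687194767360)] rfl (by decide +kernel)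
end

mutual
theorem A3_c0_t18 : CovD 1 gA3 [(233646325760, 13744209920), (536011866112, 13743947776), (687194767360, 687194767360)] :=
  covD_E kA3_eq (.n 2 (.n 2 (.n 2 (.l 0) (.n 0 (.l 0) (.l 0))) (.n 2 (.l 0) (.l 0))) (.n 0 (.n 2 (.l 0) (.l 0)) (.n 2 (.l 0) (.l 0))))
    [(233646325760, 13744209920), (536011866112, 13743947776), (687194767360, 687194767360)] rfl (by decide +kernel)
theorem A3_c0_t19 : CovD 1 gA3 [(233646325760, 13744209920), (522267918336, 27487895552), (2061584302080, 687194767360)] :=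
  covD_E kA3_eq (.n 0 (.n 2 (.n 2 (.l 0) (.l 0)) (.n 1 (.l 0) (.l 0))) (.n 2 (.n 2 (.l 0) (.l 0)) (.n 1 (.l 0) (.l 0))))
    [(233646325760, 13744209920), (522267918336, 27487895552), (2061584302080, 687194767360)] rfl (by decide +kernel)
end

mutual
theorem A3_c0_t20 : CovD 1 gA3 [(233646325760, 13744209920), (522267918336, 27487895552), (4123168604160, 1374389534720)] :=
  covD_E kA3_eq (.n 0 (.n 2 (.n 2 (.l 0) (.l 0)) (.n 2 (.n 0 (.l 0) (.l 0)) (.l 1))) (.n 2 (.n 2 (.l 0) (.l 0)) (.n 2 (.l 0) (.l 0))))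
    [(233646325760, 13744209920), (522267918336, 27487895552), (4123168604160, 1374389534720)] rfl (by decide +kernel)
theorem A3_c0_t21 : CovD 1 gA3 [(233646325760, 13744209920), (522267918336, 27487895552), (8246337208320, 2748779069440)] :=
  covD_E kA3_eq (.n 2 (.n 2 (.n 0 (.l 1) (.l 1)) (.l 1)) (.l 1))
    [(233646325760, 13744209920), (522267918336, 27487895552), (8246337208320, 2748779069440)] rfl (by decide +kernel)
end

mutual
theorem A3_c0_t25 : CovD 1 gA3 [(226774220800, 6872104960), (577243709440, 27487895552), (2748779069440, 2748779069440)] :=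
  covD_E kA3_eq (.n 2 (.n 2 (.n 2 (.n 2 (.n 2 (.l 0) (.l 0)) (.n 2 (.l 0) (.l 0))) (.n 2 (.n 0 (.l 0) (.l 0)) (.l 0))) (.n 2 (.n 2 (.l 0) (.l 0)) (.n 0 (.l 0) (.l 0)))) (.n 2 (.n 2 (.l 0) (.l 0)) (.n 2 (.l 0) (.l 0))))
    [(226774220800, 6872104960), (577243709440, 27487895552), (2748779069440, 2748779069440)] rfl (by decide +kernel)
theorem A3_c0_t26 : CovD 1 gA3 [(240518430720, 6872104960), (577243709440, 27487895552), (2748779069440, 2748779069440)] :=
  covD_E kA3_eq (.n 2 (.n 2 (.n 2 (.n 2 (.n 2 (.l 0) (.l 0)) (.n 2 (.l 0) (.l 0))) (.n 2 (.n 0 (.l 0) (.l 0)) (.l 0))) (.n 2 (.n 2 (.l 0) (.l 0)) (.n 0 (.l 0) (.l 0)))) (.n 2 (.n 2 (.l 0) (.l 0)) (.n 2 (.l 0) (.l 0))))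
    [(240518430720, 6872104960), (577243709440, 27487895552), (2748779069440, 2748779069440)] rfl (by decide +kernel)
end

mutual
theorem A3_c0_t27 : CovD 1 gA3 [(233646325760, 13744209920), (577243709440, 27487895552), (8246337208320, 2748779069440)] :=
  covD_E kA3_eq (.n 2 (.n 2 (.n 0 (.l 1) (.l 0)) (.l 1)) (.l 1))
    [(233646325760, 13744209920), (577243709440, 27487895552), (8246337208320, 2748779069440)] rfl (by decide +kernel)
theorem A3_c0_t30 : CovD 1 gA3 [(233646325760, 13744209920), (632219500544, 27487895552), (1374389534720, 1374389534720)] :=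
  covD_E kA3_eq (.n 2 (.n 2 (.n 2 (.n 2 (.l 0) (.l 0)) (.n 2 (.l 0) (.l 0))) (.n 0 (.n 2 (.l 0) (.l 0)) (.n 2 (.l 0) (.l 0)))) (.n 0 (.n 2 (.n 2 (.l 0) (.l 0)) (.l 0)) (.n 2 (.n 2 (.l 0) (.l 0)) (.n 0 (.l 0) (.l 0)))))
    [(233646325760, 13744209920), (632219500544, 27487895552), (1374389534720, 1374389534720)] rfl (by decide +kernel)
end

mutual
theorem A3_c0_t31 : CovD 1 gA3 [(233646325760, 13744209920), (632219500544, 27487895552), (4123168604160, 1374389534720)] :=
  covD_E kA3_eq (.n 2 (.n 0 (.n 2 (.l 0) (.l 0)) (.n 2 (.l 0) (.l 0))) (.n 2 (.n 0 (.l 0) (.l 0)) (.l 0)))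
    [(233646325760, 13744209920), (632219500544, 27487895552), (4123168604160, 1374389534720)] rfl (by decide +kernel)
theorem A3_c0_t32 : CovD 1 gA3 [(233646325760, 13744209920), (632219500544, 27487895552), (8246337208320, 2748779069440)] :=
  covD_E kA3_eq (.n 2 (.n 2 (.n 0 (.l 0) (.l 0)) (.l 1)) (.l 1))
    [(233646325760, 13744209920), (632219500544, 27487895552), (8246337208320, 2748779069440)] rfl (by decide +kernel)
end

mutual
theorem A3_c0_t40 : CovD 1 gA3 [(261134745600, 13744209920), (453548179456, 13743947776), (343597383680, 343597383680)] :=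
  covD_E kA3_eq (.n 0 (.n 2 (.n 0 (.n 2 (.l 0) (.l 0)) (.n 2 (.l 0) (.l 0))) (.n 2 (.l 0) (.l 0))) (.n 2 (.n 2 (.n 2 (.l 0) (.l 0)) (.n 2 (.l 0) (.l 0))) (.n 2 (.l 0) (.l 0))))
    [(261134745600, 13744209920), (453548179456, 13743947776), (343597383680, 343597383680)] rfl (by decide +kernel)
theorem A3_c0_t41 : CovD 1 gA3 [(261134745600, 13744209920), (453548179456, 13743947776), (1030792151040, 343597383680)] :=
  covD_E kA3_eq (.n 2 (.n 2 (.n 0 (.l 0) (.l 0)) (.l 0)) (.n 0 (.l 0) (.l 0)))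
    [(261134745600, 13744209920), (453548179456, 13743947776), (1030792151040, 343597383680)] rfl (by decide +kernel)
end

mutual
theorem A3_c0_t42 : CovD 1 gA3 [(261134745600, 13744209920), (453548179456, 13743947776), (2061584302080, 687194767360)] :=
  covD_E kA3_eq (.n 2 (.n 2 (.n 0 (.l 0) (.l 0)) (.l 0)) (.n 2 (.l 0) (.l 0)))
    [(261134745600, 13744209920), (453548179456, 13743947776), (2061584302080, 687194767360)] rfl (by decide +kernel)
theorem A3_c0_t43 : CovD 1 gA3 [(261134745600, 13744209920), (453548179456, 13743947776), (4123168604160, 1374389534720)] :=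
  covD_E kA3_eq (.n 2 (.n 2 (.n 0 (.l 0) (.l 0)) (.l 0)) (.n 2 (.l 0) (.l 0)))
    [(261134745600, 13744209920), (453548179456, 13743947776), (4123168604160, 1374389534720)] rfl (by decide +kernel)
end

mutual
theorem A3_c0_t46 : CovD 1 gA3 [(261134745600, 13744209920), (481036075008, 13743947776), (687194767360, 687194767360)] :=
  covD_E kA3_eq (.n 2 (.n 2 (.n 2 (.n 0 (.l 0) (.n 0 (.l 0) (.l 0))) (.n 2 (.l 0) (.l 0))) (.n 0 (.n 2 (.l 0) (.l 0)) (.n 2 (.l 0) (.l 0)))) (.n 2 (.n 2 (.n 0 (.l 0) (.l 0)) (.l 0)) (.n 0 (.l 0) (.l 0))))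
    [(261134745600, 13744209920), (481036075008, 13743947776), (687194767360, 687194767360)] rfl (by decide +kernel)
theorem A3_c0_t47 : CovD 1 gA3 [(261134745600, 13744209920), (481036075008, 13743947776), (2061584302080, 687194767360)] :=
  covD_E kA3_eq (.n 2 (.n 2 (.n 0 (.l 0) (.l 0)) (.l 0)) (.n 2 (.l 0) (.l 0)))
    [(261134745600, 13744209920), (481036075008, 13743947776), (2061584302080, 687194767360)] rfl (by decide +kernel)
end

mutual
theorem A3_c0_t48 : CovD 1 gA3 [(261134745600, 13744209920), (481036075008, 13743947776), (4123168604160, 1374389534720)] :=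
  covD_E kA3_eq (.n 2 (.n 2 (.n 0 (.l 0) (.l 0)) (.l 0)) (.n 2 (.l 0) (.l 0)))
    [(261134745600, 13744209920), (481036075008, 13743947776), (4123168604160, 1374389534720)] rfl (by decide +kernel)
theorem A3_c0_t52 : CovD 1 gA3 [(261134745600, 13744209920), (508523970560, 13743947776), (687194767360, 687194767360)] :=
  covD_E kA3_eq (.n 2 (.n 0 (.n 2 (.n 2 (.l 0) (.l 0)) (.n 2 (.l 0) (.l 0))) (.n 2 (.n 2 (.l 0) (.l 0)) (.n 2 (.l 0) (.l 0)))) (.n 2 (.n 2 (.l 0) (.l 0)) (.n 0 (.l 0) (.l 0))))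
    [(261134745600, 13744209920), (508523970560, 13743947776), (687194767360, 687194767360)] rfl (by decide +kernel)
end

mutual
theorem A3_c0_t53 : CovD 1 gA3 [(261134745600, 13744209920), (508523970560, 13743947776), (2061584302080, 687194767360)] :=
  covD_E kA3_eq (.n 2 (.n 2 (.n 0 (.l 0) (.l 0)) (.l 0)) (.n 2 (.l 0) (.l 0)))
    [(261134745600, 13744209920), (508523970560, 13743947776), (2061584302080, 687194767360)] rfl (by decide +kernel)
theorem A3_c0_t54 : CovD 1 gA3 [(261134745600, 13744209920), (508523970560, 13743947776), (4123168604160, 1374389534720)] :=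
  covD_E kA3_eq (.n 2 (.n 2 (.n 0 (.l 0) (.l 0)) (.l 0)) (.n 2 (.l 0) (.l 0)))
    [(261134745600, 13744209920), (508523970560, 13743947776), (4123168604160, 1374389534720)] rfl (by decide +kernel)
end

mutual
theorem A3_c0_t57 : CovD 1 gA3 [(261134745600, 13744209920), (536011866112, 13743947776), (687194767360, 687194767360)] :=
  covD_E kA3_eq (.n 2 (.n 0 (.n 2 (.n 2 (.l 0) (.l 0)) (.n 2 (.l 0) (.l 0))) (.n 2 (.n 2 (.l 0) (.l 0)) (.n 2 (.l 0) (.l 0)))) (.n 2 (.n 2 (.l 0) (.l 0)) (.n 0 (.l 0) (.l 0))))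
    [(261134745600, 13744209920), (536011866112, 13743947776), (687194767360, 687194767360)] rfl (by decide +kernel)
theorem A3_c0_t58 : CovD 1 gA3 [(261134745600, 13744209920), (536011866112, 13743947776), (2061584302080, 687194767360)] :=
  covD_E kA3_eq (.n 2 (.n 2 (.n 0 (.l 0) (.l 0)) (.l 0)) (.n 2 (.l 0) (.l 0)))
    [(261134745600, 13744209920), (536011866112, 13743947776), (2061584302080, 687194767360)] rfl (by decide +kernel)
end

mutual
theorem A3_c0_t59 : CovD 1 gA3 [(261134745600, 13744209920), (536011866112, 13743947776), (4123168604160, 1374389534720)] :=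
  covD_E kA3_eq (.n 2 (.n 2 (.n 0 (.l 0) (.l 0)) (.l 0)) (.n 2 (.l 0) (.l 0)))
    [(261134745600, 13744209920), (536011866112, 13743947776), (4123168604160, 1374389534720)] rfl (by decide +kernel)
theorem A3_c0_t61 : CovD 1 gA3 [(261134745600, 13744209920), (494780022784, 54975791104), (6871947673600, 1374389534720)] :=
  covD_E kA3_eq (.n 1 (.n 1 (.n 2 (.n 0 (.l 0) (.l 0)) (.l 0)) (.n 2 (.n 0 (.l 0) (.l 0)) (.l 0))) (.n 0 (.n 2 (.n 0 (.l 0) (.l 0)) (.l 0)) (.n 2 (.n 0 (.l 0) (.l 0)) (.l 0))))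
    [(261134745600, 13744209920), (494780022784, 54975791104), (6871947673600, 1374389534720)] rfl (by decide +kernel)
end

mutual
theorem A3_c0_t62 : CovD 1 gA3 [(261134745600, 13744209920), (494780022784, 54975791104), (9620726743040, 1374389534720)] :=
  covD_E kA3_eq (.n 2 (.n 0 (.l 1) (.n 1 (.l 0) (.l 0))) (.n 1 (.l 1) (.l 1)))
    [(261134745600, 13744209920), (494780022784, 54975791104), (9620726743040, 1374389534720)] rfl (by decide +kernel)
theorem A3_c0_t66 : CovD 1 gA3 [(254262640640, 6872104960), (577243709440, 27487895552), (2748779069440, 2748779069440)] :=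
  covD_E kA3_eq (.n 2 (.n 2 (.n 2 (.n 2 (.n 2 (.l 0) (.l 0)) (.n 2 (.l 0) (.l 0))) (.n 1 (.n 2 (.l 0) (.l 0)) (.n 2 (.l 0) (.l 0)))) (.n 2 (.n 2 (.l 0) (.l 0)) (.n 1 (.l 0) (.l 0)))) (.n 2 (.n 2 (.l 0) (.l 0)) (.n 2 (.l 0) (.l 0))))
    [(254262640640, 6872104960), (577243709440, 27487895552), (2748779069440, 2748779069440)] rfl (by decide +kernel)
end

mutual
theorem A3_c0_t67 : CovD 1 gA3 [(254262640640, 6872104960), (577243709440, 27487895552), (8246337208320, 2748779069440)] :=
  covD_E kA3_eq (.n 2 (.n 2 (.n 0 (.l 0) (.l 0)) (.l 0)) (.l 1))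
    [(254262640640, 6872104960), (577243709440, 27487895552), (8246337208320, 2748779069440)] rfl (by decide +kernel)
theorem A3_c0_t69 : CovD 1 gA3 [(268006850560, 6872104960), (577243709440, 27487895552), (2748779069440, 2748779069440)] :=
  covD_E kA3_eq (.n 2 (.n 2 (.n 2 (.n 2 (.n 2 (.l 0) (.l 0)) (.n 2 (.l 0) (.l 0))) (.n 2 (.n 2 (.l 0) (.l 0)) (.n 0 (.l 0) (.l 0)))) (.n 2 (.n 2 (.l 0) (.l 0)) (.n 2 (.l 0) (.l 0)))) (.n 2 (.n 2 (.l 0) (.l 0)) (.n 2 (.l 0) (.l 0))))
    [(268006850560, 6872104960), (577243709440, 27487895552), (2748779069440, 2748779069440)] rfl (by decide +kernel)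
end

mutual
theorem A3_c0_t70 : CovD 1 gA3 [(268006850560, 6872104960), (577243709440, 27487895552), (8246337208320, 2748779069440)] :=
  covD_E kA3_eq (.n 2 (.n 2 (.n 0 (.l 0) (.l 0)) (.l 0)) (.n 2 (.l 0) (.l 0)))
    [(268006850560, 6872104960), (577243709440, 27487895552), (8246337208320, 2748779069440)] rfl (by decide +kernel)
theorem A3_c0_t74 : CovD 1 gA3 [(261134745600, 13744209920), (632219500544, 27487895552), (687194767360, 687194767360)] :=
  covD_E kA3_eq (.n 0 (.n 2 (.n 1 (.n 2 (.l 0) (.l 0)) (.n 2 (.l 0) (.l 0))) (.n 2 (.n 0 (.l 0) (.l 0)) (.l 0))) (.n 2 (.n 2 (.n 2 (.l 0) (.l 0)) (.n 1 (.l 0) (.l 0))) (.n 2 (.n 0 (.l 0) (.l 0)) (.l 0))))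
    [(261134745600, 13744209920), (632219500544, 27487895552), (687194767360, 687194767360)] rfl (by decide +kernel)
end

mutual
theorem A3_c0_t75 : CovD 1 gA3 [(261134745600, 13744209920), (632219500544, 27487895552), (2061584302080, 687194767360)] :=
  covD_E kA3_eq (.n 2 (.n 0 (.n 2 (.l 0) (.l 0)) (.n 2 (.l 0) (.l 0))) (.n 2 (.n 0 (.l 0) (.l 0)) (.l 0)))
    [(261134745600, 13744209920), (632219500544, 27487895552), (2061584302080, 687194767360)] rfl (by decide +kernel)
theorem A3_c0_t76 : CovD 1 gA3 [(261134745600, 13744209920), (632219500544, 27487895552), (4123168604160, 1374389534720)] :=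
  covD_E kA3_eq (.n 2 (.n 0 (.n 2 (.l 0) (.l 0)) (.n 2 (.l 0) (.l 0))) (.n 2 (.n 0 (.l 0) (.l 0)) (.l 0)))
    [(261134745600, 13744209920), (632219500544, 27487895552), (4123168604160, 1374389534720)] rfl (by decide +kernel)
end

mutual
theorem A3_c0_t77 : CovD 1 gA3 [(261134745600, 13744209920), (632219500544, 27487895552), (8246337208320, 2748779069440)] :=
  covD_E kA3_eq (.n 2 (.n 0 (.n 2 (.l 0) (.l 0)) (.n 2 (.l 0) (.l 0))) (.n 2 (.n 0 (.l 0) (.l 0)) (.l 0)))
    [(261134745600, 13744209920), (632219500544, 27487895552), (8246337208320, 2748779069440)] rfl (by decide +kernel)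
theorem A3_c0_t83 : CovD 1 gA3 [(233646325760, 13744209920), (687195291648, 27487895552), (1374389534720, 1374389534720)] :=
  covD_E kA3_eq (.n 2 (.n 0 (.n 2 (.n 2 (.l 0) (.l 0)) (.n 2 (.l 0) (.l 0))) (.n 2 (.n 2 (.l 0) (.l 0)) (.n 2 (.l 0) (.l 0)))) (.n 2 (.n 2 (.n 0 (.l 0) (.l 0)) (.l 0)) (.n 0 (.l 0) (.l 0))))
    [(233646325760, 13744209920), (687195291648, 27487895552), (1374389534720, 1374389534720)] rfl (by decide +kernel)
end

mutual
theorem A3_c0_t84 : CovD 1 gA3 [(233646325760, 13744209920), (687195291648, 27487895552), (4123168604160, 1374389534720)] :=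
  covD_E kA3_eq (.n 2 (.n 2 (.n 0 (.l 0) (.l 0)) (.l 0)) (.n 2 (.l 0) (.l 0)))
    [(233646325760, 13744209920), (687195291648, 27487895552), (4123168604160, 1374389534720)] rfl (by decide +kernel)
theorem A3_c0_t85 : CovD 1 gA3 [(233646325760, 13744209920), (687195291648, 27487895552), (8246337208320, 2748779069440)] :=
  covD_E kA3_eq (.n 2 (.n 0 (.n 2 (.l 0) (.l 0)) (.n 2 (.l 0) (.l 0))) (.n 2 (.l 0) (.l 0)))
    [(233646325760, 13744209920), (687195291648, 27487895552), (8246337208320, 2748779069440)] rfl (by decide +kernel)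
end

mutual
theorem A3_c0_t87 : CovD 1 gA3 [(233646325760, 13744209920), (742171082752, 27487895552), (2748779069440, 2748779069440)] :=
  covD_E kA3_eq (.n 2 (.n 2 (.n 2 (.n 0 (.n 2 (.l 0) (.l 0)) (.n 2 (.l 0) (.l 0))) (.n 2 (.n 0 (.l 0) (.l 0)) (.l 0))) (.n 2 (.n 2 (.l 0) (.l 0)) (.n 0 (.l 0) (.l 0)))) (.n 2 (.n 2 (.n 0 (.l 0) (.l 0)) (.l 0)) (.n 0 (.l 0) (.l 0))))
    [(233646325760, 13744209920), (742171082752, 27487895552), (2748779069440, 2748779069440)] rfl (by decide +kernel)
theorem A3_c0_t88 : CovD 1 gA3 [(233646325760, 13744209920), (742171082752, 27487895552), (8246337208320, 2748779069440)] :=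
  covD_E kA3_eq (.n 2 (.n 2 (.n 0 (.l 0) (.l 0)) (.l 0)) (.n 0 (.l 0) (.l 0)))
    [(233646325760, 13744209920), (742171082752, 27487895552), (8246337208320, 2748779069440)] rfl (by decide +kernel)
end

mutual
theorem A3_c0_t91 : CovD 1 gA3 [(233646325760, 13744209920), (797146873856, 27487895552), (2748779069440, 2748779069440)] :=
  covD_E kA3_eq (.n 2 (.n 2 (.n 2 (.n 2 (.l 0) (.l 0)) (.n 2 (.l 0) (.l 0))) (.n 0 (.n 2 (.l 0) (.l 0)) (.n 2 (.l 0) (.l 0)))) (.n 2 (.n 2 (.l 0) (.l 0)) (.n 0 (.l 0) (.l 0))))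
    [(233646325760, 13744209920), (797146873856, 27487895552), (2748779069440, 2748779069440)] rfl (by decide +kernel)
theorem A3_c0_t92 : CovD 1 gA3 [(233646325760, 13744209920), (797146873856, 27487895552), (8246337208320, 2748779069440)] :=
  covD_E kA3_eq (.n 2 (.n 2 (.n 0 (.l 0) (.l 0)) (.l 0)) (.n 0 (.l 0) (.l 0)))
    [(233646325760, 13744209920), (797146873856, 27487895552), (8246337208320, 2748779069440)] rfl (by decide +kernel)
end

mutual
theorem A3_c0_t94 : CovD 1 gA3 [(233646325760, 13744209920), (852122664960, 27487895552), (2748779069440, 2748779069440)] :=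
  covD_E kA3_eq (.n 2 (.n 2 (.n 2 (.n 2 (.l 0) (.l 0)) (.n 2 (.l 0) (.l 0))) (.n 0 (.n 2 (.l 0) (.l 0)) (.n 2 (.l 0) (.l 0)))) (.n 2 (.n 2 (.l 0) (.l 0)) (.n 0 (.l 0) (.l 0))))
    [(233646325760, 13744209920), (852122664960, 27487895552), (2748779069440, 2748779069440)] rfl (by decide +kernel)
theorem A3_c0_t95 : CovD 1 gA3 [(233646325760, 13744209920), (852122664960, 27487895552), (8246337208320, 2748779069440)] :=
  covD_E kA3_eq (.n 2 (.n 2 (.n 0 (.l 0) (.l 0)) (.l 0)) (.n 0 (.l 0) (.l 0)))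
    [(233646325760, 13744209920), (852122664960, 27487895552), (8246337208320, 2748779069440)] rfl (by decide +kernel)
end

mutual
theorem A3_c0_t100 : CovD 1 gA3 [(261134745600, 13744209920), (687195291648, 27487895552), (1374389534720, 1374389534720)] :=
  covD_E kA3_eq (.n 0 (.n 2 (.n 2 (.n 2 (.l 0) (.l 0)) (.n 2 (.l 0) (.l 0))) (.n 2 (.n 2 (.l 0) (.l 0)) (.l 0))) (.n 2 (.n 2 (.n 2 (.l 0) (.l 0)) (.n 2 (.l 0) (.l 0))) (.n 2 (.n 2 (.l 0) (.l 0)) (.l 0))))
    [(261134745600, 13744209920), (687195291648, 27487895552), (1374389534720, 1374389534720)] rfl (by decide +kernel)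
theorem A3_c0_t101 : CovD 1 gA3 [(261134745600, 13744209920), (687195291648, 27487895552), (4123168604160, 1374389534720)] :=
  covD_E kA3_eq (.n 2 (.n 0 (.n 2 (.l 0) (.l 0)) (.n 2 (.l 0) (.l 0))) (.n 2 (.l 0) (.l 0)))
    [(261134745600, 13744209920), (687195291648, 27487895552), (4123168604160, 1374389534720)] rfl (by decide +kernel)
end

mutual
theorem A3_c0_t102 : CovD 1 gA3 [(261134745600, 13744209920), (687195291648, 27487895552), (8246337208320, 2748779069440)] :=
  covD_E kA3_eq (.n 2 (.n 0 (.n 2 (.l 0) (.l 0)) (.n 2 (.l 0) (.l 0))) (.n 2 (.l 0) (.l 0)))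
    [(261134745600, 13744209920), (687195291648, 27487895552), (8246337208320, 2748779069440)] rfl (by decide +kernel)
theorem A3_c0_t105 : CovD 1 gA3 [(261134745600, 13744209920), (742171082752, 27487895552), (1374389534720, 1374389534720)] :=
  covD_E kA3_eq (.n 2 (.n 0 (.n 2 (.n 2 (.l 0) (.l 0)) (.n 2 (.l 0) (.l 0))) (.n 2 (.n 2 (.l 0) (.l 0)) (.n 2 (.l 0) (.l 0)))) (.n 2 (.n 2 (.l 0) (.l 0)) (.n 0 (.l 0) (.l 0))))
    [(261134745600, 13744209920), (742171082752, 27487895552), (1374389534720, 1374389534720)] rfl (by decide +kernel)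
end

mutual
theorem A3_c0_t106 : CovD 1 gA3 [(261134745600, 13744209920), (742171082752, 27487895552), (4123168604160, 1374389534720)] :=
  covD_E kA3_eq (.n 2 (.n 2 (.n 0 (.l 0) (.l 0)) (.l 0)) (.n 2 (.l 0) (.l 0)))
    [(261134745600, 13744209920), (742171082752, 27487895552), (4123168604160, 1374389534720)] rfl (by decide +kernel)
theorem A3_c0_t107 : CovD 1 gA3 [(261134745600, 13744209920), (742171082752, 27487895552), (8246337208320, 2748779069440)] :=
  covD_E kA3_eq (.n 2 (.n 2 (.n 0 (.l 0) (.l 0)) (.l 0)) (.n 2 (.l 0) (.l 0)))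
    [(261134745600, 13744209920), (742171082752, 27487895552), (8246337208320, 2748779069440)] rfl (by decide +kernel)
end

mutual
theorem A3_c0_t110 : CovD 1 gA3 [(261134745600, 13744209920), (797146873856, 27487895552), (2748779069440, 2748779069440)] :=
  covD_E kA3_eq (.n 2 (.n 2 (.n 2 (.n 2 (.l 0) (.l 0)) (.n 2 (.l 0) (.l 0))) (.n 2 (.n 2 (.l 0) (.l 0)) (.n 0 (.l 0) (.l 0)))) (.n 2 (.n 2 (.l 0) (.l 0)) (.n 0 (.l 0) (.l 0))))
    [(261134745600, 13744209920), (797146873856, 27487895552), (2748779069440, 2748779069440)] rfl (by decide +kernel)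
theorem A3_c0_t111 : CovD 1 gA3 [(261134745600, 13744209920), (797146873856, 27487895552), (8246337208320, 2748779069440)] :=
  covD_E kA3_eq (.n 2 (.n 2 (.n 0 (.l 0) (.l 0)) (.l 0)) (.n 0 (.l 0) (.l 0)))
    [(261134745600, 13744209920), (797146873856, 27487895552), (8246337208320, 2748779069440)] rfl (by decide +kernel)
end

mutual
theorem A3_c0_t113 : CovD 1 gA3 [(261134745600, 13744209920), (852122664960, 27487895552), (2748779069440, 2748779069440)] :=
  covD_E kA3_eq (.n 2 (.n 2 (.n 2 (.n 2 (.l 0) (.l 0)) (.n 2 (.l 0) (.l 0))) (.n 0 (.n 2 (.l 0) (.l 0)) (.n 2 (.l 0) (.l 0)))) (.n 2 (.n 2 (.l 0) (.l 0)) (.n 0 (.l 0) (.l 0))))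
    [(261134745600, 13744209920), (852122664960, 27487895552), (2748779069440, 2748779069440)] rfl (by decide +kernel)
theorem A3_c0_t114 : CovD 1 gA3 [(261134745600, 13744209920), (852122664960, 27487895552), (8246337208320, 2748779069440)] :=
  covD_E kA3_eq (.n 2 (.n 2 (.n 0 (.l 0) (.l 0)) (.l 0)) (.n 0 (.l 0) (.l 0)))
    [(261134745600, 13744209920), (852122664960, 27487895552), (8246337208320, 2748779069440)] rfl (by decide +kernel)
end

mutual
theorem B3_c0_t1 : CovD 1 gB3 [(233646325760, 13744209920), (659707396096, 219903164416), (54975791104, 54975791104)] :=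
  covD_E kB3_eq (.n 1 (.n 1 (.n 2 (.l 1) (.l 1)) (.n 2 (.l 1) (.l 1))) (.n 0 (.n 1 (.n 2 (.l 0) (.l 0)) (.n 2 (.l 0) (.l 0))) (.n 1 (.n 2 (.l 0) (.l 0)) (.n 2 (.l 0) (.l 0)))))
    [(233646325760, 13744209920), (659707396096, 219903164416), (54975791104, 54975791104)] rfl (by decide +kernel)
theorem B3_c0_t3 : CovD 1 gB3 [(261134745600, 13744209920), (549755813888, 109951582208), (54975791104, 54975791104)] :=
  covD_E kB3_eq (.n 1 (.n 2 (.n 2 (.l 1) (.l 1)) (.n 2 (.l 1) (.n 0 (.l 1) (.l 1)))) (.n 1 (.n 0 (.n 2 (.l 0) (.l 0)) (.n 2 (.l 0) (.l 0))) (.n 2 (.l 0) (.l 0))))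
    [(261134745600, 13744209920), (549755813888, 109951582208), (54975791104, 54975791104)] rfl (by decide +kernel)
end

theorem B3_c0_t4 : CovD 1 gB3 [(261134745600, 13744209920), (769658978304, 109951582208), (54975791104, 54975791104)] :=
  covD_E kB3_eq (.n 0 (.n 1 (.n 2 (.l 0) (.l 0)) (.n 2 (.l 0) (.l 0))) (.n 1 (.n 2 (.l 0) (.l 0)) (.n 2 (.l 0) (.l 0))))
    [(261134745600, 13744209920), (769658978304, 109951582208), (54975791104, 54975791104)] rfl (by decide +kernel)

theorem A3_c0_t7 : CovD 1 gA3 [(233646325760, 13744209920), (467292127232, 27487895552), (687194767360, 687194767360)] :=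
  covD_split 1 (by decide +kernel) A3_c0_t8 A3_c0_t9

theorem A3_c0_t6 : CovD 1 gA3 [(233646325760, 13744209920), (467292127232, 27487895552), (1374389534720, 1374389534720)] :=
  covD_split 2 (by decide +kernel) A3_c0_t7 A3_c0_t10

theorem A3_c0_t5 : CovD 1 gA3 [(233646325760, 13744209920), (467292127232, 27487895552), (2748779069440, 2748779069440)] :=
  covD_split 2 (by decide +kernel) A3_c0_t6 A3_c0_t11

theorem A3_c0_t4 : CovD 1 gA3 [(233646325760, 13744209920), (467292127232, 27487895552), (5497558138880, 5497558138880)] :=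
  covD_split 2 (by decide +kernel) A3_c0_t5 A3_c0_t12

theorem A3_c0_t16 : CovD 1 gA3 [(233646325760, 13744209920), (522267918336, 27487895552), (687194767360, 687194767360)] :=
  covD_split 1 (by decide +kernel) A3_c0_t17 A3_c0_t18

theorem A3_c0_t15 : CovD 1 gA3 [(233646325760, 13744209920), (522267918336, 27487895552), (1374389534720, 1374389534720)] :=
  covD_split 2 (by decide +kernel) A3_c0_t16 A3_c0_t19

theorem A3_c0_t14 : CovD 1 gA3 [(233646325760, 13744209920), (522267918336, 27487895552), (2748779069440, 2748779069440)] :=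
  covD_split 2 (by decide +kernel) A3_c0_t15 A3_c0_t20

theorem A3_c0_t13 : CovD 1 gA3 [(233646325760, 13744209920), (522267918336, 27487895552), (5497558138880, 5497558138880)] :=
  covD_split 2 (by decide +kernel) A3_c0_t14 A3_c0_t21

theorem A3_c0_t3 : CovD 1 gA3 [(233646325760, 13744209920), (494780022784, 54975791104), (5497558138880, 5497558138880)] :=
  covD_split 1 (by decide +kernel) A3_c0_t4 A3_c0_t13

theorem A3_c0_t24 : CovD 1 gA3 [(233646325760, 13744209920), (577243709440, 27487895552), (2748779069440, 2748779069440)] :=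
  covD_split 0 (by decide +kernel) A3_c0_t25 A3_c0_t26

theorem A3_c0_t23 : CovD 1 gA3 [(233646325760, 13744209920), (577243709440, 27487895552), (5497558138880, 5497558138880)] :=
  covD_split 2 (by decide +kernel) A3_c0_t24 A3_c0_t27

theorem A3_c0_t29 : CovD 1 gA3 [(233646325760, 13744209920), (632219500544, 27487895552), (2748779069440, 2748779069440)] :=
  covD_split 2 (by decide +kernel) A3_c0_t30 A3_c0_t31

theorem A3_c0_t28 : CovD 1 gA3 [(233646325760, 13744209920), (632219500544, 27487895552), (5497558138880, 5497558138880)] :=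
  covD_split 2 (by decide +kernel) A3_c0_t29 A3_c0_t32

theorem A3_c0_t22 : CovD 1 gA3 [(233646325760, 13744209920), (604731604992, 54975791104), (5497558138880, 5497558138880)] :=
  covD_split 1 (by decide +kernel) A3_c0_t23 A3_c0_t28

theorem A3_c0_t2 : CovD 1 gA3 [(233646325760, 13744209920), (549755813888, 109951582208), (5497558138880, 5497558138880)] :=
  covD_split 1 (by decide +kernel) A3_c0_t3 A3_c0_t22

theorem A3_c0_t39 : CovD 1 gA3 [(261134745600, 13744209920), (453548179456, 13743947776), (687194767360, 687194767360)] :=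
  covD_split 2 (by decide +kernel) A3_c0_t40 A3_c0_t41

theorem A3_c0_t38 : CovD 1 gA3 [(261134745600, 13744209920), (453548179456, 13743947776), (1374389534720, 1374389534720)] :=
  covD_split 2 (by decide +kernel) A3_c0_t39 A3_c0_t42

theorem A3_c0_t37 : CovD 1 gA3 [(261134745600, 13744209920), (453548179456, 13743947776), (2748779069440, 2748779069440)] :=
  covD_split 2 (by decide +kernel) A3_c0_t38 A3_c0_t43

theorem A3_c0_t45 : CovD 1 gA3 [(261134745600, 13744209920), (481036075008, 13743947776), (1374389534720, 1374389534720)] :=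
  covD_split 2 (by decide +kernel) A3_c0_t46 A3_c0_t47

theorem A3_c0_t44 : CovD 1 gA3 [(261134745600, 13744209920), (481036075008, 13743947776), (2748779069440, 2748779069440)] :=
  covD_split 2 (by decide +kernel) A3_c0_t45 A3_c0_t48

theorem A3_c0_t36 : CovD 1 gA3 [(261134745600, 13744209920), (467292127232, 27487895552), (2748779069440, 2748779069440)] :=
  covD_split 1 (by decide +kernel) A3_c0_t37 A3_c0_t44

theorem A3_c0_t51 : CovD 1 gA3 [(261134745600, 13744209920), (508523970560, 13743947776), (1374389534720, 1374389534720)] :=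
  covD_split 2 (by decide +kernel) A3_c0_t52 A3_c0_t53

theorem A3_c0_t50 : CovD 1 gA3 [(261134745600, 13744209920), (508523970560, 13743947776), (2748779069440, 2748779069440)] :=
  covD_split 2 (by decide +kernel) A3_c0_t51 A3_c0_t54

theorem A3_c0_t56 : CovD 1 gA3 [(261134745600, 13744209920), (536011866112, 13743947776), (1374389534720, 1374389534720)] :=
  covD_split 2 (by decide +kernel) A3_c0_t57 A3_c0_t58

theorem A3_c0_t55 : CovD 1 gA3 [(261134745600, 13744209920), (536011866112, 13743947776), (2748779069440, 2748779069440)] :=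
  covD_split 2 (by decide +kernel) A3_c0_t56 A3_c0_t59

theorem A3_c0_t49 : CovD 1 gA3 [(261134745600, 13744209920), (522267918336, 27487895552), (2748779069440, 2748779069440)] :=
  covD_split 1 (by decide +kernel) A3_c0_t50 A3_c0_t55

theorem A3_c0_t35 : CovD 1 gA3 [(261134745600, 13744209920), (494780022784, 54975791104), (2748779069440, 2748779069440)] :=
  covD_split 1 (by decide +kernel) A3_c0_t36 A3_c0_t49

theorem A3_c0_t60 : CovD 1 gA3 [(261134745600, 13744209920), (494780022784, 54975791104), (8246337208320, 2748779069440)] :=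
  covD_split 2 (by decide +kernel) A3_c0_t61 A3_c0_t62

theorem A3_c0_t34 : CovD 1 gA3 [(261134745600, 13744209920), (494780022784, 54975791104), (5497558138880, 5497558138880)] :=
  covD_split 2 (by decide +kernel) A3_c0_t35 A3_c0_t60

theorem A3_c0_t65 : CovD 1 gA3 [(254262640640, 6872104960), (577243709440, 27487895552), (5497558138880, 5497558138880)] :=
  covD_split 2 (by decide +kernel) A3_c0_t66 A3_c0_t67

theorem A3_c0_t68 : CovD 1 gA3 [(268006850560, 6872104960), (577243709440, 27487895552), (5497558138880, 5497558138880)] :=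
  covD_split 2 (by decide +kernel) A3_c0_t69 A3_c0_t70

theorem A3_c0_t64 : CovD 1 gA3 [(261134745600, 13744209920), (577243709440, 27487895552), (5497558138880, 5497558138880)] :=
  covD_split 0 (by decide +kernel) A3_c0_t65 A3_c0_t68

theorem A3_c0_t73 : CovD 1 gA3 [(261134745600, 13744209920), (632219500544, 27487895552), (1374389534720, 1374389534720)] :=
  covD_split 2 (by decide +kernel) A3_c0_t74 A3_c0_t75

theorem A3_c0_t72 : CovD 1 gA3 [(261134745600, 13744209920), (632219500544, 27487895552), (2748779069440, 2748779069440)] :=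
  covD_split 2 (by decide +kernel) A3_c0_t73 A3_c0_t76

theorem A3_c0_t71 : CovD 1 gA3 [(261134745600, 13744209920), (632219500544, 27487895552), (5497558138880, 5497558138880)] :=
  covD_split 2 (by decide +kernel) A3_c0_t72 A3_c0_t77

theorem A3_c0_t63 : CovD 1 gA3 [(261134745600, 13744209920), (604731604992, 54975791104), (5497558138880, 5497558138880)] :=
  covD_split 1 (by decide +kernel) A3_c0_t64 A3_c0_t71

theorem A3_c0_t33 : CovD 1 gA3 [(261134745600, 13744209920), (549755813888, 109951582208), (5497558138880, 5497558138880)] :=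
  covD_split 1 (by decide +kernel) A3_c0_t34 A3_c0_t63

theorem A3_c0_t1 : CovD 1 gA3 [(247390535680, 27488419840), (549755813888, 109951582208), (5497558138880, 5497558138880)] :=
  covD_split 0 (by decide +kernel) A3_c0_t2 A3_c0_t33

theorem A3_c0_t82 : CovD 1 gA3 [(233646325760, 13744209920), (687195291648, 27487895552), (2748779069440, 2748779069440)] :=
  covD_split 2 (by decide +kernel) A3_c0_t83 A3_c0_t84

theorem A3_c0_t81 : CovD 1 gA3 [(233646325760, 13744209920), (687195291648, 27487895552), (5497558138880, 5497558138880)] :=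
  covD_split 2 (by decide +kernel) A3_c0_t82 A3_c0_t85

theorem A3_c0_t86 : CovD 1 gA3 [(233646325760, 13744209920), (742171082752, 27487895552), (5497558138880, 5497558138880)] :=
  covD_split 2 (by decide +kernel) A3_c0_t87 A3_c0_t88

theorem A3_c0_t80 : CovD 1 gA3 [(233646325760, 13744209920), (714683187200, 54975791104), (5497558138880, 5497558138880)] :=
  covD_split 1 (by decide +kernel) A3_c0_t81 A3_c0_t86

theorem A3_c0_t90 : CovD 1 gA3 [(233646325760, 13744209920), (797146873856, 27487895552), (5497558138880, 5497558138880)] :=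
  covD_split 2 (by decide +kernel) A3_c0_t91 A3_c0_t92

theorem A3_c0_t93 : CovD 1 gA3 [(233646325760, 13744209920), (852122664960, 27487895552), (5497558138880, 5497558138880)] :=
  covD_split 2 (by decide +kernel) A3_c0_t94 A3_c0_t95

theorem A3_c0_t89 : CovD 1 gA3 [(233646325760, 13744209920), (824634769408, 54975791104), (5497558138880, 5497558138880)] :=
  covD_split 1 (by decide +kernel) A3_c0_t90 A3_c0_t93

theorem A3_c0_t79 : CovD 1 gA3 [(233646325760, 13744209920), (769658978304, 109951582208), (5497558138880, 5497558138880)] :=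
  covD_split 1 (by decide +kernel) A3_c0_t80 A3_c0_t89

theorem A3_c0_t99 : CovD 1 gA3 [(261134745600, 13744209920), (687195291648, 27487895552), (2748779069440, 2748779069440)] :=
  covD_split 2 (by decide +kernel) A3_c0_t100 A3_c0_t101

theorem A3_c0_t98 : CovD 1 gA3 [(261134745600, 13744209920), (687195291648, 27487895552), (5497558138880, 5497558138880)] :=
  covD_split 2 (by decide +kernel) A3_c0_t99 A3_c0_t102

theorem A3_c0_t104 : CovD 1 gA3 [(261134745600, 13744209920), (742171082752, 27487895552), (2748779069440, 2748779069440)] :=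
  covD_split 2 (by decide +kernel) A3_c0_t105 A3_c0_t106

theorem A3_c0_t103 : CovD 1 gA3 [(261134745600, 13744209920), (742171082752, 27487895552), (5497558138880, 5497558138880)] :=
  covD_split 2 (by decide +kernel) A3_c0_t104 A3_c0_t107

theorem A3_c0_t97 : CovD 1 gA3 [(261134745600, 13744209920), (714683187200, 54975791104), (5497558138880, 5497558138880)] :=
  covD_split 1 (by decide +kernel) A3_c0_t98 A3_c0_t103

theorem A3_c0_t109 : CovD 1 gA3 [(261134745600, 13744209920), (797146873856, 27487895552), (5497558138880, 5497558138880)] :=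
  covD_split 2 (by decide +kernel) A3_c0_t110 A3_c0_t111

theorem A3_c0_t112 : CovD 1 gA3 [(261134745600, 13744209920), (852122664960, 27487895552), (5497558138880, 5497558138880)] :=
  covD_split 2 (by decide +kernel) A3_c0_t113 A3_c0_t114

theorem A3_c0_t108 : CovD 1 gA3 [(261134745600, 13744209920), (824634769408, 54975791104), (5497558138880, 5497558138880)] :=
  covD_split 1 (by decide +kernel) A3_c0_t109 A3_c0_t112

theorem A3_c0_t96 : CovD 1 gA3 [(261134745600, 13744209920), (769658978304, 109951582208), (5497558138880, 5497558138880)] :=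
  covD_split 1 (by decide +kernel) A3_c0_t97 A3_c0_t108

theorem A3_c0_t78 : CovD 1 gA3 [(247390535680, 27488419840), (769658978304, 109951582208), (5497558138880, 5497558138880)] :=
  covD_split 0 (by decide +kernel) A3_c0_t79 A3_c0_t96

theorem A3_c0 : CovD 1 gA3 [(247390535680, 27488419840), (659707396096, 219903164416), (5497558138880, 5497558138880)] :=
  covD_split 1 (by decide +kernel) A3_c0_t1 A3_c0_t78

theorem B3_c0_t2 : CovD 1 gB3 [(261134745600, 13744209920), (659707396096, 219903164416), (54975791104, 54975791104)] :=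
  covD_split 1 (by decide +kernel) B3_c0_t3 B3_c0_t4

theorem B3_c0 : CovD 1 gB3 [(247390535680, 27488419840), (659707396096, 219903164416), (54975791104, 54975791104)] :=
  covD_split 0 (by decide +kernel) B3_c0_t1 B3_c0_t2

end Pool.Agent.helper14.NR.E4c
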