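import Pool.Agent.helper14.NR.E4c.PN5

/-!
Generated: certificates.
-/

namespace Pool.Agent.helper14.NR.E4c

open Pool.Agent.helper31.IA (Z)
open Pool.Agent.helper31.IX (Op XOps runX Cov CovD cov_split covD_split)
open Pool.Agent.helper31.IC (TD)
open Pool.Agent.helper63.RG (reloc)
open Pool.Agent.helper63.NF hiding TD
open Pool.Agent.helper14.CF (xE covD_E)
open Pool.Agent.helper14.NR (share)

mutual
theorem A5_c0_t8 : CovD 1 gA5 [(233646325760, 13744209920), (453548179456, 13743947776), (687194767360, 687194767360)] :=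
  covD_E kA5_eq (.n 2 (.n 2 (.n 2 (.n 2 (.l 0) (.l 0)) (.n 2 (.l 0) (.l 0))) (.n 0 (.n 2 (.l 0) (.l 0)) (.n 2 (.l 0) (.l 0)))) (.n 2 (.n 2 (.n 0 (.l 0) (.l 0)) (.l 0)) (.n 0 (.l 0) (.l 0))))
    [(233646325760, 13744209920), (453548179456, 13743947776), (687194767360, 687194767360)] rfl (by decide +kernel)
theorem A5_c0_t9 : CovD 1 gA5 [(233646325760, 13744209920), (481036075008, 13743947776), (687194767360, 687194767360)] :=
  covD_E kA5_eq (.n 2 (.n 2 (.n 2 (.n 2 (.l 0) (.l 0)) (.n 0 (.l 0) (.l 0))) (.n 0 (.n 2 (.l 0) (.l 0)) (.n 2 (.l 0) (.l 0)))) (.n 2 (.n 2 (.n 0 (.l 0) (.l 0)) (.l 0)) (.n 0 (.l 0) (.l 0))))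
    [(233646325760, 13744209920), (481036075008, 13743947776), (687194767360, 687194767360)] rfl (by decide +kernel)
end

mutual
theorem A5_c0_t10 : CovD 1 gA5 [(233646325760, 13744209920), (467292127232, 27487895552), (2061584302080, 687194767360)] :=
  covD_E kA5_eq (.n 0 (.n 2 (.n 2 (.l 0) (.l 0)) (.n 0 (.l 0) (.l 0))) (.n 2 (.n 2 (.l 0) (.l 0)) (.n 1 (.l 0) (.l 0))))
    [(233646325760, 13744209920), (467292127232, 27487895552), (2061584302080, 687194767360)] rfl (by decide +kernel)
theorem A5_c0_t11 : CovD 1 gA5 [(233646325760, 13744209920), (467292127232, 27487895552), (4123168604160, 1374389534720)] :=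
  covD_E kA5_eq (.n 0 (.n 2 (.n 2 (.l 0) (.l 0)) (.n 2 (.l 0) (.l 0))) (.n 2 (.n 2 (.n 0 (.l 0) (.l 0)) (.l 0)) (.n 1 (.l 0) (.l 0))))
    [(233646325760, 13744209920), (467292127232, 27487895552), (4123168604160, 1374389534720)] rfl (by decide +kernel)
end

mutual
theorem A5_c0_t12 : CovD 1 gA5 [(233646325760, 13744209920), (467292127232, 27487895552), (8246337208320, 2748779069440)] :=
  covD_E kA5_eq (.n 0 (.n 2 (.n 2 (.n 2 (.l 0) (.l 0)) (.n 2 (.l 0) (.l 0))) (.n 0 (.n 2 (.l 0) (.l 0)) (.l 0))) (.n 2 (.n 2 (.l 0) (.l 0)) (.n 0 (.l 0) (.l 0))))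
    [(233646325760, 13744209920), (467292127232, 27487895552), (8246337208320, 2748779069440)] rfl (by decide +kernel)
theorem A5_c0_t16 : CovD 1 gA5 [(226774220800, 6872104960), (522267918336, 27487895552), (1374389534720, 1374389534720)] :=
  covD_E kA5_eq (.n 2 (.n 2 (.n 1 (.n 2 (.n 2 (.l 0) (.l 0)) (.n 2 (.l 0) (.l 0))) (.n 2 (.n 2 (.l 0) (.l 0)) (.n 2 (.l 0) (.l 0)))) (.n 2 (.n 2 (.l 0) (.l 0)) (.n 0 (.l 0) (.l 0)))) (.n 2 (.n 2 (.l 0) (.l 0)) (.n 0 (.l 0) (.l 0))))
    [(226774220800, 6872104960), (522267918336, 27487895552), (1374389534720, 1374389534720)] rfl (by decide +kernel)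
end

mutual
theorem A5_c0_t17 : CovD 1 gA5 [(226774220800, 6872104960), (522267918336, 27487895552), (4123168604160, 1374389534720)] :=
  covD_E kA5_eq (.n 2 (.n 2 (.l 0) (.l 0)) (.n 1 (.l 0) (.l 0)))
    [(226774220800, 6872104960), (522267918336, 27487895552), (4123168604160, 1374389534720)] rfl (by decide +kernel)
theorem A5_c0_t19 : CovD 1 gA5 [(240518430720, 6872104960), (522267918336, 27487895552), (1374389534720, 1374389534720)] :=
  covD_E kA5_eq (.n 2 (.n 2 (.n 1 (.n 2 (.n 2 (.l 0) (.l 0)) (.n 2 (.l 0) (.l 0))) (.n 2 (.n 2 (.l 0) (.l 0)) (.n 2 (.l 0) (.l 0)))) (.n 2 (.n 2 (.l 0) (.l 0)) (.n 0 (.l 0) (.l 0)))) (.n 2 (.n 2 (.l 0) (.l 0)) (.n 1 (.l 0) (.l 0))))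
    [(240518430720, 6872104960), (522267918336, 27487895552), (1374389534720, 1374389534720)] rfl (by decide +kernel)
end

mutual
theorem A5_c0_t20 : CovD 1 gA5 [(240518430720, 6872104960), (522267918336, 27487895552), (4123168604160, 1374389534720)] :=
  covD_E kA5_eq (.n 2 (.n 2 (.l 0) (.l 0)) (.n 1 (.l 0) (.l 0)))
    [(240518430720, 6872104960), (522267918336, 27487895552), (4123168604160, 1374389534720)] rfl (by decide +kernel)
theorem A5_c0_t21 : CovD 1 gA5 [(233646325760, 13744209920), (522267918336, 27487895552), (8246337208320, 2748779069440)] :=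
  covD_E kA5_eq (.n 2 (.n 0 (.n 2 (.l 0) (.l 0)) (.n 2 (.l 0) (.l 0))) (.n 2 (.n 0 (.l 0) (.l 0)) (.l 0)))
    [(233646325760, 13744209920), (522267918336, 27487895552), (8246337208320, 2748779069440)] rfl (by decide +kernel)
end

mutual
theorem A5_c0_t25 : CovD 1 gA5 [(226774220800, 6872104960), (577243709440, 27487895552), (2748779069440, 2748779069440)] :=
  covD_E kA5_eq (.n 2 (.n 2 (.n 2 (.n 2 (.n 2 (.l 0) (.l 0)) (.n 2 (.l 0) (.l 0))) (.n 2 (.n 0 (.l 0) (.l 0)) (.l 0))) (.n 2 (.n 2 (.l 0) (.l 0)) (.n 0 (.l 0) (.l 0)))) (.n 2 (.n 2 (.l 0) (.l 0)) (.n 0 (.l 0) (.l 0))))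
    [(226774220800, 6872104960), (577243709440, 27487895552), (2748779069440, 2748779069440)] rfl (by decide +kernel)
theorem A5_c0_t26 : CovD 1 gA5 [(240518430720, 6872104960), (577243709440, 27487895552), (2748779069440, 2748779069440)] :=
  covD_E kA5_eq (.n 2 (.n 2 (.n 2 (.n 2 (.n 2 (.l 0) (.l 0)) (.n 2 (.l 0) (.l 0))) (.n 1 (.n 2 (.l 0) (.l 0)) (.n 2 (.l 0) (.l 0)))) (.n 2 (.n 2 (.l 0) (.l 0)) (.n 0 (.l 0) (.l 0)))) (.n 2 (.n 2 (.l 0) (.l 0)) (.n 1 (.l 0) (.l 0))))
    [(240518430720, 6872104960), (577243709440, 27487895552), (2748779069440, 2748779069440)] rfl (by decide +kernel)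
end

mutual
theorem A5_c0_t27 : CovD 1 gA5 [(233646325760, 13744209920), (577243709440, 27487895552), (8246337208320, 2748779069440)] :=
  covD_E kA5_eq (.n 2 (.n 0 (.n 2 (.l 0) (.l 0)) (.n 2 (.l 0) (.l 0))) (.n 2 (.n 0 (.l 0) (.l 0)) (.l 0)))
    [(233646325760, 13744209920), (577243709440, 27487895552), (8246337208320, 2748779069440)] rfl (by decide +kernel)
theorem A5_c0_t31 : CovD 1 gA5 [(226774220800, 6872104960), (632219500544, 27487895552), (1374389534720, 1374389534720)] :=
  covD_E kA5_eq (.n 2 (.n 2 (.n 0 (.n 2 (.l 0) (.l 0)) (.n 2 (.l 0) (.l 0))) (.n 2 (.l 0) (.l 0))) (.n 2 (.n 2 (.l 0) (.l 0)) (.l 0)))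
    [(226774220800, 6872104960), (632219500544, 27487895552), (1374389534720, 1374389534720)] rfl (by decide +kernel)
end

mutual
theorem A5_c0_t32 : CovD 1 gA5 [(240518430720, 6872104960), (632219500544, 27487895552), (1374389534720, 1374389534720)] :=
  covD_E kA5_eq (.n 2 (.n 2 (.n 1 (.n 2 (.l 0) (.l 0)) (.n 2 (.l 0) (.l 0))) (.n 2 (.l 0) (.l 0))) (.n 2 (.n 2 (.l 0) (.l 0)) (.n 0 (.l 0) (.l 0))))
    [(240518430720, 6872104960), (632219500544, 27487895552), (1374389534720, 1374389534720)] rfl (by decide +kernel)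
theorem A5_c0_t33 : CovD 1 gA5 [(233646325760, 13744209920), (632219500544, 27487895552), (4123168604160, 1374389534720)] :=
  covD_E kA5_eq (.n 2 (.n 0 (.n 2 (.l 0) (.l 0)) (.n 2 (.l 0) (.l 0))) (.n 2 (.n 0 (.l 0) (.l 0)) (.l 0)))
    [(233646325760, 13744209920), (632219500544, 27487895552), (4123168604160, 1374389534720)] rfl (by decide +kernel)
end

mutual
theorem A5_c0_t34 : CovD 1 gA5 [(233646325760, 13744209920), (632219500544, 27487895552), (8246337208320, 2748779069440)] :=
  covD_E kA5_eq (.n 2 (.n 0 (.n 2 (.l 0) (.l 0)) (.n 2 (.l 0) (.l 0))) (.n 2 (.l 0) (.l 0)))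
    [(233646325760, 13744209920), (632219500544, 27487895552), (8246337208320, 2748779069440)] rfl (by decide +kernel)
theorem A5_c0_t42 : CovD 1 gA5 [(261134745600, 13744209920), (453548179456, 13743947776), (343597383680, 343597383680)] :=
  covD_E kA5_eq (.n 0 (.n 2 (.n 2 (.n 2 (.l 0) (.l 0)) (.n 0 (.l 0) (.l 0))) (.n 2 (.l 0) (.l 0))) (.n 2 (.n 2 (.n 2 (.l 0) (.l 0)) (.n 1 (.l 0) (.l 0))) (.n 2 (.n 0 (.l 0) (.l 0)) (.l 0))))
    [(261134745600, 13744209920), (453548179456, 13743947776), (343597383680, 343597383680)] rfl (by decide +kernel)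
end

mutual
theorem A5_c0_t43 : CovD 1 gA5 [(261134745600, 13744209920), (453548179456, 13743947776), (1030792151040, 343597383680)] :=
  covD_E kA5_eq (.n 2 (.n 2 (.n 0 (.l 0) (.l 0)) (.l 0)) (.n 0 (.l 0) (.l 0)))
    [(261134745600, 13744209920), (453548179456, 13743947776), (1030792151040, 343597383680)] rfl (by decide +kernel)
theorem A5_c0_t44 : CovD 1 gA5 [(261134745600, 13744209920), (453548179456, 13743947776), (2061584302080, 687194767360)] :=
  covD_E kA5_eq (.n 2 (.n 2 (.n 0 (.l 0) (.l 0)) (.l 0)) (.n 0 (.l 0) (.l 0)))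
    [(261134745600, 13744209920), (453548179456, 13743947776), (2061584302080, 687194767360)] rfl (by decide +kernel)
end

mutual
theorem A5_c0_t45 : CovD 1 gA5 [(261134745600, 13744209920), (453548179456, 13743947776), (4123168604160, 1374389534720)] :=
  covD_E kA5_eq (.n 2 (.n 2 (.n 0 (.l 0) (.l 0)) (.l 0)) (.n 0 (.l 0) (.l 0)))
    [(261134745600, 13744209920), (453548179456, 13743947776), (4123168604160, 1374389534720)] rfl (by decide +kernel)
theorem A5_c0_t46 : CovD 1 gA5 [(261134745600, 13744209920), (453548179456, 13743947776), (8246337208320, 2748779069440)] :=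
  covD_E kA5_eq (.n 2 (.n 2 (.l 0) (.l 0)) (.n 0 (.l 0) (.l 0)))
    [(261134745600, 13744209920), (453548179456, 13743947776), (8246337208320, 2748779069440)] rfl (by decide +kernel)
end

mutual
theorem A5_c0_t51 : CovD 1 gA5 [(261134745600, 13744209920), (481036075008, 13743947776), (343597383680, 343597383680)] :=
  covD_E kA5_eq (.n 0 (.n 2 (.n 0 (.n 2 (.l 0) (.l 0)) (.n 2 (.l 0) (.l 0))) (.n 2 (.l 0) (.l 0))) (.n 2 (.n 2 (.n 2 (.l 0) (.l 0)) (.n 0 (.l 0) (.l 0))) (.n 2 (.l 0) (.l 0))))
    [(261134745600, 13744209920), (481036075008, 13743947776), (343597383680, 343597383680)] rfl (by decide +kernel)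
theorem A5_c0_t52 : CovD 1 gA5 [(261134745600, 13744209920), (481036075008, 13743947776), (1030792151040, 343597383680)] :=
  covD_E kA5_eq (.n 2 (.n 2 (.n 0 (.l 0) (.l 0)) (.l 0)) (.n 0 (.l 0) (.l 0)))
    [(261134745600, 13744209920), (481036075008, 13743947776), (1030792151040, 343597383680)] rfl (by decide +kernel)
end

mutual
theorem A5_c0_t53 : CovD 1 gA5 [(261134745600, 13744209920), (481036075008, 13743947776), (2061584302080, 687194767360)] :=
  covD_E kA5_eq (.n 2 (.n 2 (.n 0 (.l 0) (.l 0)) (.l 0)) (.n 2 (.l 0) (.l 0)))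
    [(261134745600, 13744209920), (481036075008, 13743947776), (2061584302080, 687194767360)] rfl (by decide +kernel)
theorem A5_c0_t54 : CovD 1 gA5 [(261134745600, 13744209920), (481036075008, 13743947776), (4123168604160, 1374389534720)] :=
  covD_E kA5_eq (.n 2 (.n 2 (.n 0 (.l 0) (.l 0)) (.l 0)) (.n 2 (.l 0) (.l 0)))
    [(261134745600, 13744209920), (481036075008, 13743947776), (4123168604160, 1374389534720)] rfl (by decide +kernel)
end

mutual
theorem A5_c0_t55 : CovD 1 gA5 [(261134745600, 13744209920), (481036075008, 13743947776), (8246337208320, 2748779069440)] :=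
  covD_E kA5_eq (.n 2 (.n 2 (.n 0 (.l 0) (.l 0)) (.l 0)) (.n 0 (.l 0) (.l 0)))
    [(261134745600, 13744209920), (481036075008, 13743947776), (8246337208320, 2748779069440)] rfl (by decide +kernel)
theorem A5_c0_t60 : CovD 1 gA5 [(254262640640, 6872104960), (522267918336, 27487895552), (687194767360, 687194767360)] :=
  covD_E kA5_eq (.n 2 (.n 1 (.n 2 (.n 2 (.n 0 (.l 0) (.l 0)) (.l 0)) (.n 2 (.l 0) (.l 0))) (.n 2 (.n 2 (.l 0) (.l 0)) (.n 2 (.l 0) (.l 0)))) (.n 2 (.n 2 (.n 0 (.l 0) (.l 0)) (.l 0)) (.n 1 (.l 0) (.l 0))))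
    [(254262640640, 6872104960), (522267918336, 27487895552), (687194767360, 687194767360)] rfl (by decide +kernel)
end

mutual
theorem A5_c0_t61 : CovD 1 gA5 [(254262640640, 6872104960), (522267918336, 27487895552), (2061584302080, 687194767360)] :=
  covD_E kA5_eq (.n 2 (.n 2 (.l 0) (.l 0)) (.n 1 (.l 0) (.l 0)))
    [(254262640640, 6872104960), (522267918336, 27487895552), (2061584302080, 687194767360)] rfl (by decide +kernel)
theorem A5_c0_t62 : CovD 1 gA5 [(254262640640, 6872104960), (522267918336, 27487895552), (4123168604160, 1374389534720)] :=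
  covD_E kA5_eq (.n 2 (.n 2 (.n 0 (.l 0) (.l 0)) (.l 0)) (.n 1 (.l 0) (.l 0)))
    [(254262640640, 6872104960), (522267918336, 27487895552), (4123168604160, 1374389534720)] rfl (by decide +kernel)
end

mutual
theorem A5_c0_t63 : CovD 1 gA5 [(254262640640, 6872104960), (522267918336, 27487895552), (8246337208320, 2748779069440)] :=
  covD_E kA5_eq (.n 2 (.n 2 (.l 0) (.l 0)) (.n 1 (.l 0) (.l 0)))
    [(254262640640, 6872104960), (522267918336, 27487895552), (8246337208320, 2748779069440)] rfl (by decide +kernel)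
theorem A5_c0_t67 : CovD 1 gA5 [(268006850560, 6872104960), (522267918336, 27487895552), (687194767360, 687194767360)] :=
  covD_E kA5_eq (.n 2 (.n 1 (.n 2 (.n 0 (.n 2 (.l 0) (.l 0)) (.n 2 (.l 0) (.l 0))) (.n 2 (.l 0) (.l 0))) (.n 2 (.n 2 (.l 0) (.l 0)) (.n 2 (.l 0) (.l 0)))) (.n 2 (.n 2 (.n 0 (.l 0) (.l 0)) (.l 0)) (.n 1 (.l 0) (.l 0))))
    [(268006850560, 6872104960), (522267918336, 27487895552), (687194767360, 687194767360)] rfl (by decide +kernel)
end

mutual
theorem A5_c0_t68 : CovD 1 gA5 [(268006850560, 6872104960), (522267918336, 27487895552), (2061584302080, 687194767360)] :=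
  covD_E kA5_eq (.n 2 (.n 2 (.n 0 (.l 0) (.l 0)) (.l 0)) (.n 2 (.l 0) (.l 0)))
    [(268006850560, 6872104960), (522267918336, 27487895552), (2061584302080, 687194767360)] rfl (by decide +kernel)
theorem A5_c0_t69 : CovD 1 gA5 [(268006850560, 6872104960), (522267918336, 27487895552), (4123168604160, 1374389534720)] :=
  covD_E kA5_eq (.n 2 (.n 2 (.n 0 (.l 0) (.l 0)) (.l 0)) (.n 2 (.l 0) (.l 0)))
    [(268006850560, 6872104960), (522267918336, 27487895552), (4123168604160, 1374389534720)] rfl (by decide +kernel)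
end

mutual
theorem A5_c0_t70 : CovD 1 gA5 [(268006850560, 6872104960), (522267918336, 27487895552), (8246337208320, 2748779069440)] :=
  covD_E kA5_eq (.n 2 (.n 2 (.n 0 (.l 0) (.l 0)) (.l 0)) (.n 1 (.l 0) (.l 0)))
    [(268006850560, 6872104960), (522267918336, 27487895552), (8246337208320, 2748779069440)] rfl (by decide +kernel)
theorem A5_c0_t76 : CovD 1 gA5 [(261134745600, 13744209920), (577243709440, 27487895552), (343597383680, 343597383680)] :=
  covD_E kA5_eq (.n 2 (.n 1 (.n 0 (.n 2 (.l 0) (.l 0)) (.n 2 (.l 0) (.l 0))) (.n 2 (.l 0) (.l 0))) (.n 0 (.n 2 (.l 0) (.l 0)) (.n 2 (.n 0 (.l 0) (.l 0)) (.l 0))))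
    [(261134745600, 13744209920), (577243709440, 27487895552), (343597383680, 343597383680)] rfl (by decide +kernel)
end

mutual
theorem A5_c0_t77 : CovD 1 gA5 [(261134745600, 13744209920), (577243709440, 27487895552), (1030792151040, 343597383680)] :=
  covD_E kA5_eq (.n 0 (.n 1 (.n 2 (.l 0) (.l 0)) (.n 2 (.l 0) (.l 0))) (.n 2 (.n 2 (.l 0) (.l 0)) (.n 0 (.l 0) (.l 0))))
    [(261134745600, 13744209920), (577243709440, 27487895552), (1030792151040, 343597383680)] rfl (by decide +kernel)
theorem A5_c0_t78 : CovD 1 gA5 [(261134745600, 13744209920), (577243709440, 27487895552), (2061584302080, 687194767360)] :=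
  covD_E kA5_eq (.n 0 (.n 2 (.n 2 (.l 0) (.l 0)) (.n 1 (.l 0) (.l 0))) (.n 2 (.n 2 (.l 0) (.l 0)) (.n 1 (.l 0) (.l 0))))
    [(261134745600, 13744209920), (577243709440, 27487895552), (2061584302080, 687194767360)] rfl (by decide +kernel)
end

mutual
theorem A5_c0_t79 : CovD 1 gA5 [(261134745600, 13744209920), (577243709440, 27487895552), (4123168604160, 1374389534720)] :=
  covD_E kA5_eq (.n 0 (.n 2 (.n 2 (.l 0) (.l 0)) (.n 1 (.l 0) (.l 0))) (.n 2 (.n 2 (.n 0 (.l 0) (.l 0)) (.l 0)) (.n 2 (.l 0) (.l 0))))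
    [(261134745600, 13744209920), (577243709440, 27487895552), (4123168604160, 1374389534720)] rfl (by decide +kernel)
theorem A5_c0_t80 : CovD 1 gA5 [(261134745600, 13744209920), (577243709440, 27487895552), (8246337208320, 2748779069440)] :=
  covD_E kA5_eq (.n 0 (.n 2 (.n 2 (.l 0) (.l 0)) (.n 1 (.l 0) (.l 0))) (.n 2 (.n 2 (.n 0 (.l 0) (.l 0)) (.l 0)) (.n 1 (.l 0) (.l 0))))
    [(261134745600, 13744209920), (577243709440, 27487895552), (8246337208320, 2748779069440)] rfl (by decide +kernel)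
end

mutual
theorem A5_c0_t83 : CovD 1 gA5 [(254262640640, 6872104960), (632219500544, 27487895552), (2748779069440, 2748779069440)] :=
  covD_E kA5_eq (.n 2 (.n 2 (.n 2 (.n 1 (.n 2 (.l 0) (.l 0)) (.n 2 (.l 0) (.l 0))) (.n 2 (.n 0 (.l 0) (.l 0)) (.l 0))) (.n 2 (.n 2 (.l 0) (.l 0)) (.n 0 (.l 0) (.l 0)))) (.n 2 (.n 2 (.l 0) (.l 0)) (.n 1 (.l 0) (.l 0))))
    [(254262640640, 6872104960), (632219500544, 27487895552), (2748779069440, 2748779069440)] rfl (by decide +kernel)
theorem A5_c0_t84 : CovD 1 gA5 [(268006850560, 6872104960), (632219500544, 27487895552), (2748779069440, 2748779069440)] :=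
  covD_E kA5_eq (.n 2 (.n 2 (.n 2 (.n 2 (.n 2 (.l 0) (.l 0)) (.n 1 (.l 0) (.l 0))) (.n 2 (.n 0 (.l 0) (.l 0)) (.l 0))) (.n 2 (.n 2 (.l 0) (.l 0)) (.n 0 (.l 0) (.l 0)))) (.n 2 (.n 2 (.l 0) (.l 0)) (.n 1 (.l 0) (.l 0))))
    [(268006850560, 6872104960), (632219500544, 27487895552), (2748779069440, 2748779069440)] rfl (by decide +kernel)
end

mutual
theorem A5_c0_t85 : CovD 1 gA5 [(261134745600, 13744209920), (632219500544, 27487895552), (8246337208320, 2748779069440)] :=
  covD_E kA5_eq (.n 2 (.n 0 (.n 2 (.l 0) (.l 0)) (.n 2 (.l 0) (.l 0))) (.n 2 (.n 0 (.l 0) (.l 0)) (.l 0)))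
    [(261134745600, 13744209920), (632219500544, 27487895552), (8246337208320, 2748779069440)] rfl (by decide +kernel)
theorem A5_c0_t91 : CovD 1 gA5 [(233646325760, 13744209920), (687195291648, 27487895552), (1374389534720, 1374389534720)] :=
  covD_E kA5_eq (.n 2 (.n 0 (.n 2 (.n 2 (.l 0) (.l 0)) (.n 2 (.l 0) (.l 0))) (.n 2 (.n 2 (.l 0) (.l 0)) (.n 2 (.l 0) (.l 0)))) (.n 2 (.n 2 (.n 0 (.l 0) (.l 0)) (.l 0)) (.n 0 (.l 0) (.l 0))))
    [(233646325760, 13744209920), (687195291648, 27487895552), (1374389534720, 1374389534720)] rfl (by decide +kernel)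
end

mutual
theorem A5_c0_t92 : CovD 1 gA5 [(233646325760, 13744209920), (687195291648, 27487895552), (4123168604160, 1374389534720)] :=
  covD_E kA5_eq (.n 2 (.n 0 (.n 2 (.l 0) (.l 0)) (.n 2 (.l 0) (.l 0))) (.n 2 (.l 0) (.l 0)))
    [(233646325760, 13744209920), (687195291648, 27487895552), (4123168604160, 1374389534720)] rfl (by decide +kernel)
theorem A5_c0_t93 : CovD 1 gA5 [(233646325760, 13744209920), (687195291648, 27487895552), (8246337208320, 2748779069440)] :=
  covD_E kA5_eq (.n 2 (.n 2 (.n 0 (.l 0) (.l 0)) (.l 0)) (.n 0 (.l 0) (.l 0)))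
    [(233646325760, 13744209920), (687195291648, 27487895552), (8246337208320, 2748779069440)] rfl (by decide +kernel)
end

mutual
theorem A5_c0_t96 : CovD 1 gA5 [(233646325760, 13744209920), (742171082752, 27487895552), (1374389534720, 1374389534720)] :=
  covD_E kA5_eq (.n 2 (.n 0 (.n 2 (.n 2 (.l 0) (.l 0)) (.n 2 (.l 0) (.l 0))) (.n 2 (.n 2 (.l 0) (.l 0)) (.n 2 (.l 0) (.l 0)))) (.n 2 (.n 2 (.l 0) (.l 0)) (.n 0 (.l 0) (.l 0))))
    [(233646325760, 13744209920), (742171082752, 27487895552), (1374389534720, 1374389534720)] rfl (by decide +kernel)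
theorem A5_c0_t97 : CovD 1 gA5 [(233646325760, 13744209920), (742171082752, 27487895552), (4123168604160, 1374389534720)] :=
  covD_E kA5_eq (.n 2 (.n 2 (.n 0 (.l 0) (.l 0)) (.l 0)) (.n 0 (.l 0) (.l 0)))
    [(233646325760, 13744209920), (742171082752, 27487895552), (4123168604160, 1374389534720)] rfl (by decide +kernel)
end

mutual
theorem A5_c0_t98 : CovD 1 gA5 [(233646325760, 13744209920), (742171082752, 27487895552), (8246337208320, 2748779069440)] :=
  covD_E kA5_eq (.n 2 (.n 2 (.n 0 (.l 0) (.l 0)) (.l 0)) (.n 0 (.l 0) (.l 0)))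
    [(233646325760, 13744209920), (742171082752, 27487895552), (8246337208320, 2748779069440)] rfl (by decide +kernel)
theorem A5_c0_t101 : CovD 1 gA5 [(233646325760, 13744209920), (797146873856, 27487895552), (2748779069440, 2748779069440)] :=
  covD_E kA5_eq (.n 2 (.n 2 (.n 2 (.n 2 (.l 0) (.l 0)) (.n 2 (.l 0) (.l 0))) (.n 0 (.n 2 (.l 0) (.l 0)) (.n 2 (.l 0) (.l 0)))) (.n 2 (.n 2 (.l 0) (.l 0)) (.n 0 (.l 0) (.l 0))))
    [(233646325760, 13744209920), (797146873856, 27487895552), (2748779069440, 2748779069440)] rfl (by decide +kernel)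
end

mutual
theorem A5_c0_t102 : CovD 1 gA5 [(233646325760, 13744209920), (797146873856, 27487895552), (8246337208320, 2748779069440)] :=
  covD_E kA5_eq (.n 2 (.n 2 (.n 0 (.l 0) (.l 0)) (.l 0)) (.n 0 (.l 0) (.l 0)))
    [(233646325760, 13744209920), (797146873856, 27487895552), (8246337208320, 2748779069440)] rfl (by decide +kernel)
theorem A5_c0_t104 : CovD 1 gA5 [(233646325760, 13744209920), (852122664960, 27487895552), (2748779069440, 2748779069440)] :=
  covD_E kA5_eq (.n 2 (.n 2 (.n 2 (.n 2 (.l 0) (.l 0)) (.n 2 (.l 0) (.l 0))) (.n 0 (.n 2 (.l 0) (.l 0)) (.n 2 (.l 0) (.l 0)))) (.n 2 (.n 2 (.l 0) (.l 0)) (.n 0 (.l 0) (.l 0))))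
    [(233646325760, 13744209920), (852122664960, 27487895552), (2748779069440, 2748779069440)] rfl (by decide +kernel)
end

mutual
theorem A5_c0_t105 : CovD 1 gA5 [(233646325760, 13744209920), (852122664960, 27487895552), (8246337208320, 2748779069440)] :=
  covD_E kA5_eq (.n 2 (.n 2 (.n 0 (.l 0) (.l 0)) (.l 0)) (.n 0 (.l 0) (.l 0)))
    [(233646325760, 13744209920), (852122664960, 27487895552), (8246337208320, 2748779069440)] rfl (by decide +kernel)
theorem A5_c0_t110 : CovD 1 gA5 [(261134745600, 13744209920), (687195291648, 27487895552), (1374389534720, 1374389534720)] :=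
  covD_E kA5_eq (.n 2 (.n 0 (.n 2 (.n 2 (.l 0) (.l 0)) (.n 2 (.l 0) (.l 0))) (.n 2 (.n 2 (.l 0) (.l 0)) (.n 2 (.l 0) (.l 0)))) (.n 2 (.n 2 (.n 0 (.l 0) (.l 0)) (.l 0)) (.n 0 (.l 0) (.l 0))))
    [(261134745600, 13744209920), (687195291648, 27487895552), (1374389534720, 1374389534720)] rfl (by decide +kernel)
end

mutual
theorem A5_c0_t111 : CovD 1 gA5 [(261134745600, 13744209920), (687195291648, 27487895552), (4123168604160, 1374389534720)] :=
  covD_E kA5_eq (.n 2 (.n 0 (.n 2 (.l 0) (.l 0)) (.n 2 (.l 0) (.l 0))) (.n 2 (.l 0) (.l 0)))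
    [(261134745600, 13744209920), (687195291648, 27487895552), (4123168604160, 1374389534720)] rfl (by decide +kernel)
theorem A5_c0_t112 : CovD 1 gA5 [(261134745600, 13744209920), (687195291648, 27487895552), (8246337208320, 2748779069440)] :=
  covD_E kA5_eq (.n 2 (.n 0 (.n 2 (.l 0) (.l 0)) (.n 2 (.l 0) (.l 0))) (.n 2 (.l 0) (.l 0)))
    [(261134745600, 13744209920), (687195291648, 27487895552), (8246337208320, 2748779069440)] rfl (by decide +kernel)
end

mutual
theorem A5_c0_t115 : CovD 1 gA5 [(261134745600, 13744209920), (742171082752, 27487895552), (1374389534720, 1374389534720)] :=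
  covD_E kA5_eq (.n 2 (.n 0 (.n 2 (.n 2 (.l 0) (.l 0)) (.n 2 (.l 0) (.l 0))) (.n 2 (.n 2 (.l 0) (.l 0)) (.n 2 (.l 0) (.l 0)))) (.n 2 (.n 2 (.l 0) (.l 0)) (.n 0 (.l 0) (.l 0))))
    [(261134745600, 13744209920), (742171082752, 27487895552), (1374389534720, 1374389534720)] rfl (by decide +kernel)
theorem A5_c0_t116 : CovD 1 gA5 [(261134745600, 13744209920), (742171082752, 27487895552), (4123168604160, 1374389534720)] :=
  covD_E kA5_eq (.n 2 (.n 2 (.n 0 (.l 0) (.l 0)) (.l 0)) (.n 2 (.l 0) (.l 0)))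
    [(261134745600, 13744209920), (742171082752, 27487895552), (4123168604160, 1374389534720)] rfl (by decide +kernel)
end

mutual
theorem A5_c0_t117 : CovD 1 gA5 [(261134745600, 13744209920), (742171082752, 27487895552), (8246337208320, 2748779069440)] :=
  covD_E kA5_eq (.n 2 (.n 2 (.n 0 (.l 0) (.l 0)) (.l 0)) (.n 0 (.l 0) (.l 0)))
    [(261134745600, 13744209920), (742171082752, 27487895552), (8246337208320, 2748779069440)] rfl (by decide +kernel)
theorem A5_c0_t120 : CovD 1 gA5 [(261134745600, 13744209920), (797146873856, 27487895552), (2748779069440, 2748779069440)] :=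
  covD_E kA5_eq (.n 2 (.n 2 (.n 2 (.n 2 (.l 0) (.n 0 (.l 0) (.l 0))) (.n 2 (.l 0) (.l 0))) (.n 0 (.n 2 (.l 0) (.l 0)) (.n 2 (.l 0) (.l 0)))) (.n 2 (.n 2 (.n 0 (.l 0) (.l 0)) (.l 0)) (.n 0 (.l 0) (.l 0))))
    [(261134745600, 13744209920), (797146873856, 27487895552), (2748779069440, 2748779069440)] rfl (by decide +kernel)
end

mutual
theorem A5_c0_t121 : CovD 1 gA5 [(261134745600, 13744209920), (797146873856, 27487895552), (8246337208320, 2748779069440)] :=
  covD_E kA5_eq (.n 2 (.n 2 (.n 0 (.l 0) (.l 0)) (.l 0)) (.n 0 (.l 0) (.l 0)))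
    [(261134745600, 13744209920), (797146873856, 27487895552), (8246337208320, 2748779069440)] rfl (by decide +kernel)
theorem A5_c0_t123 : CovD 1 gA5 [(261134745600, 13744209920), (852122664960, 27487895552), (2748779069440, 2748779069440)] :=
  covD_E kA5_eq (.n 2 (.n 2 (.n 2 (.n 2 (.l 0) (.l 0)) (.n 2 (.l 0) (.l 0))) (.n 0 (.n 2 (.l 0) (.l 0)) (.n 2 (.l 0) (.l 0)))) (.n 2 (.n 2 (.l 0) (.l 0)) (.n 0 (.l 0) (.l 0))))
    [(261134745600, 13744209920), (852122664960, 27487895552), (2748779069440, 2748779069440)] rfl (by decide +kernel)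
end

mutual
theorem A5_c0_t124 : CovD 1 gA5 [(261134745600, 13744209920), (852122664960, 27487895552), (8246337208320, 2748779069440)] :=
  covD_E kA5_eq (.n 2 (.n 2 (.n 0 (.l 0) (.l 0)) (.l 0)) (.n 0 (.l 0) (.l 0)))
    [(261134745600, 13744209920), (852122664960, 27487895552), (8246337208320, 2748779069440)] rfl (by decide +kernel)
theorem B5_c0_t2 : CovD 1 gB5 [(233646325760, 13744209920), (549755813888, 109951582208), (54975791104, 54975791104)] :=
  covD_E kB5_eq (.n 0 (.n 0 (.n 1 (.n 1 (.n 1 (.n 2 (.n 2 (.l 1) (.l 1)) (.n 2 (.l 1) (.n 0 (.l 1) (.l 0)))) (.n 2 (.l 0) (.l 0))) (.l 0)) (.l 0)) (.n 1 (.n 2 (.l 0) (.l 0)) (.l 0))) (.n 1 (.n 1 (.l 0) (.l 0)) (.n 1 (.l 0) (.l 0))))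
    [(233646325760, 13744209920), (549755813888, 109951582208), (54975791104, 54975791104)] rfl (by decide +kernel)
end

mutual
theorem B5_c0_t3 : CovD 1 gB5 [(233646325760, 13744209920), (769658978304, 109951582208), (54975791104, 54975791104)] :=
  covD_E kB5_eq (.n 1 (.n 1 (.l 0) (.l 0)) (.n 0 (.l 0) (.l 0)))
    [(233646325760, 13744209920), (769658978304, 109951582208), (54975791104, 54975791104)] rfl (by decide +kernel)
theorem B5_c0_t4 : CovD 1 gB5 [(261134745600, 13744209920), (659707396096, 219903164416), (54975791104, 54975791104)] :=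
  covD_E kB5_eq (.n 1 (.n 0 (.n 1 (.n 1 (.l 0) (.l 0)) (.n 1 (.l 0) (.l 0))) (.n 1 (.n 1 (.l 0) (.l 0)) (.n 1 (.l 0) (.l 0)))) (.n 1 (.n 1 (.l 0) (.l 0)) (.n 1 (.l 0) (.l 0))))
    [(261134745600, 13744209920), (659707396096, 219903164416), (54975791104, 54975791104)] rfl (by decide +kernel)
end

theorem A5_c0_t7 : CovD 1 gA5 [(233646325760, 13744209920), (467292127232, 27487895552), (687194767360, 687194767360)] :=
  covD_split 1 (by decide +kernel) A5_c0_t8 A5_c0_t9

theorem A5_c0_t6 : CovD 1 gA5 [(233646325760, 13744209920), (467292127232, 27487895552), (1374389534720, 1374389534720)] :=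
  covD_split 2 (by decide +kernel) A5_c0_t7 A5_c0_t10

theorem A5_c0_t5 : CovD 1 gA5 [(233646325760, 13744209920), (467292127232, 27487895552), (2748779069440, 2748779069440)] :=
  covD_split 2 (by decide +kernel) A5_c0_t6 A5_c0_t11

theorem A5_c0_t4 : CovD 1 gA5 [(233646325760, 13744209920), (467292127232, 27487895552), (5497558138880, 5497558138880)] :=
  covD_split 2 (by decide +kernel) A5_c0_t5 A5_c0_t12

theorem A5_c0_t15 : CovD 1 gA5 [(226774220800, 6872104960), (522267918336, 27487895552), (2748779069440, 2748779069440)] :=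
  covD_split 2 (by decide +kernel) A5_c0_t16 A5_c0_t17

theorem A5_c0_t18 : CovD 1 gA5 [(240518430720, 6872104960), (522267918336, 27487895552), (2748779069440, 2748779069440)] :=
  covD_split 2 (by decide +kernel) A5_c0_t19 A5_c0_t20

theorem A5_c0_t14 : CovD 1 gA5 [(233646325760, 13744209920), (522267918336, 27487895552), (2748779069440, 2748779069440)] :=
  covD_split 0 (by decide +kernel) A5_c0_t15 A5_c0_t18

theorem A5_c0_t13 : CovD 1 gA5 [(233646325760, 13744209920), (522267918336, 27487895552), (5497558138880, 5497558138880)] :=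
  covD_split 2 (by decide +kernel) A5_c0_t14 A5_c0_t21

theorem A5_c0_t3 : CovD 1 gA5 [(233646325760, 13744209920), (494780022784, 54975791104), (5497558138880, 5497558138880)] :=
  covD_split 1 (by decide +kernel) A5_c0_t4 A5_c0_t13

theorem A5_c0_t24 : CovD 1 gA5 [(233646325760, 13744209920), (577243709440, 27487895552), (2748779069440, 2748779069440)] :=
  covD_split 0 (by decide +kernel) A5_c0_t25 A5_c0_t26

theorem A5_c0_t23 : CovD 1 gA5 [(233646325760, 13744209920), (577243709440, 27487895552), (5497558138880, 5497558138880)] :=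
  covD_split 2 (by decide +kernel) A5_c0_t24 A5_c0_t27

theorem A5_c0_t30 : CovD 1 gA5 [(233646325760, 13744209920), (632219500544, 27487895552), (1374389534720, 1374389534720)] :=
  covD_split 0 (by decide +kernel) A5_c0_t31 A5_c0_t32

theorem A5_c0_t29 : CovD 1 gA5 [(233646325760, 13744209920), (632219500544, 27487895552), (2748779069440, 2748779069440)] :=
  covD_split 2 (by decide +kernel) A5_c0_t30 A5_c0_t33

theorem A5_c0_t28 : CovD 1 gA5 [(233646325760, 13744209920), (632219500544, 27487895552), (5497558138880, 5497558138880)] :=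
  covD_split 2 (by decide +kernel) A5_c0_t29 A5_c0_t34

theorem A5_c0_t22 : CovD 1 gA5 [(233646325760, 13744209920), (604731604992, 54975791104), (5497558138880, 5497558138880)] :=
  covD_split 1 (by decide +kernel) A5_c0_t23 A5_c0_t28

theorem A5_c0_t2 : CovD 1 gA5 [(233646325760, 13744209920), (549755813888, 109951582208), (5497558138880, 5497558138880)] :=
  covD_split 1 (by decide +kernel) A5_c0_t3 A5_c0_t22

theorem A5_c0_t41 : CovD 1 gA5 [(261134745600, 13744209920), (453548179456, 13743947776), (687194767360, 687194767360)] :=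
  covD_split 2 (by decide +kernel) A5_c0_t42 A5_c0_t43

theorem A5_c0_t40 : CovD 1 gA5 [(261134745600, 13744209920), (453548179456, 13743947776), (1374389534720, 1374389534720)] :=
  covD_split 2 (by decide +kernel) A5_c0_t41 A5_c0_t44

theorem A5_c0_t39 : CovD 1 gA5 [(261134745600, 13744209920), (453548179456, 13743947776), (2748779069440, 2748779069440)] :=
  covD_split 2 (by decide +kernel) A5_c0_t40 A5_c0_t45

theorem A5_c0_t38 : CovD 1 gA5 [(261134745600, 13744209920), (453548179456, 13743947776), (5497558138880, 5497558138880)] :=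
  covD_split 2 (by decide +kernel) A5_c0_t39 A5_c0_t46

theorem A5_c0_t50 : CovD 1 gA5 [(261134745600, 13744209920), (481036075008, 13743947776), (687194767360, 687194767360)] :=
  covD_split 2 (by decide +kernel) A5_c0_t51 A5_c0_t52

theorem A5_c0_t49 : CovD 1 gA5 [(261134745600, 13744209920), (481036075008, 13743947776), (1374389534720, 1374389534720)] :=
  covD_split 2 (by decide +kernel) A5_c0_t50 A5_c0_t53

theorem A5_c0_t48 : CovD 1 gA5 [(261134745600, 13744209920), (481036075008, 13743947776), (2748779069440, 2748779069440)] :=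
  covD_split 2 (by decide +kernel) A5_c0_t49 A5_c0_t54

theorem A5_c0_t47 : CovD 1 gA5 [(261134745600, 13744209920), (481036075008, 13743947776), (5497558138880, 5497558138880)] :=
  covD_split 2 (by decide +kernel) A5_c0_t48 A5_c0_t55

theorem A5_c0_t37 : CovD 1 gA5 [(261134745600, 13744209920), (467292127232, 27487895552), (5497558138880, 5497558138880)] :=
  covD_split 1 (by decide +kernel) A5_c0_t38 A5_c0_t47

theorem A5_c0_t59 : CovD 1 gA5 [(254262640640, 6872104960), (522267918336, 27487895552), (1374389534720, 1374389534720)] :=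
  covD_split 2 (by decide +kernel) A5_c0_t60 A5_c0_t61

theorem A5_c0_t58 : CovD 1 gA5 [(254262640640, 6872104960), (522267918336, 27487895552), (2748779069440, 2748779069440)] :=
  covD_split 2 (by decide +kernel) A5_c0_t59 A5_c0_t62

theorem A5_c0_t57 : CovD 1 gA5 [(254262640640, 6872104960), (522267918336, 27487895552), (5497558138880, 5497558138880)] :=
  covD_split 2 (by decide +kernel) A5_c0_t58 A5_c0_t63

theorem A5_c0_t66 : CovD 1 gA5 [(268006850560, 6872104960), (522267918336, 27487895552), (1374389534720, 1374389534720)] :=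
  covD_split 2 (by decide +kernel) A5_c0_t67 A5_c0_t68

theorem A5_c0_t65 : CovD 1 gA5 [(268006850560, 6872104960), (522267918336, 27487895552), (2748779069440, 2748779069440)] :=
  covD_split 2 (by decide +kernel) A5_c0_t66 A5_c0_t69

theorem A5_c0_t64 : CovD 1 gA5 [(268006850560, 6872104960), (522267918336, 27487895552), (5497558138880, 5497558138880)] :=
  covD_split 2 (by decide +kernel) A5_c0_t65 A5_c0_t70

theorem A5_c0_t56 : CovD 1 gA5 [(261134745600, 13744209920), (522267918336, 27487895552), (5497558138880, 5497558138880)] :=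
  covD_split 0 (by decide +kernel) A5_c0_t57 A5_c0_t64

theorem A5_c0_t36 : CovD 1 gA5 [(261134745600, 13744209920), (494780022784, 54975791104), (5497558138880, 5497558138880)] :=
  covD_split 1 (by decide +kernel) A5_c0_t37 A5_c0_t56

theorem A5_c0_t75 : CovD 1 gA5 [(261134745600, 13744209920), (577243709440, 27487895552), (687194767360, 687194767360)] :=
  covD_split 2 (by decide +kernel) A5_c0_t76 A5_c0_t77

theorem A5_c0_t74 : CovD 1 gA5 [(261134745600, 13744209920), (577243709440, 27487895552), (1374389534720, 1374389534720)] :=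
  covD_split 2 (by decide +kernel) A5_c0_t75 A5_c0_t78

theorem A5_c0_t73 : CovD 1 gA5 [(261134745600, 13744209920), (577243709440, 27487895552), (2748779069440, 2748779069440)] :=
  covD_split 2 (by decide +kernel) A5_c0_t74 A5_c0_t79

theorem A5_c0_t72 : CovD 1 gA5 [(261134745600, 13744209920), (577243709440, 27487895552), (5497558138880, 5497558138880)] :=
  covD_split 2 (by decide +kernel) A5_c0_t73 A5_c0_t80

theorem A5_c0_t82 : CovD 1 gA5 [(261134745600, 13744209920), (632219500544, 27487895552), (2748779069440, 2748779069440)] :=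
  covD_split 0 (by decide +kernel) A5_c0_t83 A5_c0_t84

theorem A5_c0_t81 : CovD 1 gA5 [(261134745600, 13744209920), (632219500544, 27487895552), (5497558138880, 5497558138880)] :=
  covD_split 2 (by decide +kernel) A5_c0_t82 A5_c0_t85

theorem A5_c0_t71 : CovD 1 gA5 [(261134745600, 13744209920), (604731604992, 54975791104), (5497558138880, 5497558138880)] :=
  covD_split 1 (by decide +kernel) A5_c0_t72 A5_c0_t81

theorem A5_c0_t35 : CovD 1 gA5 [(261134745600, 13744209920), (549755813888, 109951582208), (5497558138880, 5497558138880)] :=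
  covD_split 1 (by decide +kernel) A5_c0_t36 A5_c0_t71

theorem A5_c0_t1 : CovD 1 gA5 [(247390535680, 27488419840), (549755813888, 109951582208), (5497558138880, 5497558138880)] :=
  covD_split 0 (by decide +kernel) A5_c0_t2 A5_c0_t35

theorem A5_c0_t90 : CovD 1 gA5 [(233646325760, 13744209920), (687195291648, 27487895552), (2748779069440, 2748779069440)] :=
  covD_split 2 (by decide +kernel) A5_c0_t91 A5_c0_t92

theorem A5_c0_t89 : CovD 1 gA5 [(233646325760, 13744209920), (687195291648, 27487895552), (5497558138880, 5497558138880)] :=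
  covD_split 2 (by decide +kernel) A5_c0_t90 A5_c0_t93

theorem A5_c0_t95 : CovD 1 gA5 [(233646325760, 13744209920), (742171082752, 27487895552), (2748779069440, 2748779069440)] :=
  covD_split 2 (by decide +kernel) A5_c0_t96 A5_c0_t97

theorem A5_c0_t94 : CovD 1 gA5 [(233646325760, 13744209920), (742171082752, 27487895552), (5497558138880, 5497558138880)] :=
  covD_split 2 (by decide +kernel) A5_c0_t95 A5_c0_t98

theorem A5_c0_t88 : CovD 1 gA5 [(233646325760, 13744209920), (714683187200, 54975791104), (5497558138880, 5497558138880)] :=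
  covD_split 1 (by decide +kernel) A5_c0_t89 A5_c0_t94

theorem A5_c0_t100 : CovD 1 gA5 [(233646325760, 13744209920), (797146873856, 27487895552), (5497558138880, 5497558138880)] :=
  covD_split 2 (by decide +kernel) A5_c0_t101 A5_c0_t102

theorem A5_c0_t103 : CovD 1 gA5 [(233646325760, 13744209920), (852122664960, 27487895552), (5497558138880, 5497558138880)] :=
  covD_split 2 (by decide +kernel) A5_c0_t104 A5_c0_t105

theorem A5_c0_t99 : CovD 1 gA5 [(233646325760, 13744209920), (824634769408, 54975791104), (5497558138880, 5497558138880)] :=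
  covD_split 1 (by decide +kernel) A5_c0_t100 A5_c0_t103

theorem A5_c0_t87 : CovD 1 gA5 [(233646325760, 13744209920), (769658978304, 109951582208), (5497558138880, 5497558138880)] :=
  covD_split 1 (by decide +kernel) A5_c0_t88 A5_c0_t99

theorem A5_c0_t109 : CovD 1 gA5 [(261134745600, 13744209920), (687195291648, 27487895552), (2748779069440, 2748779069440)] :=
  covD_split 2 (by decide +kernel) A5_c0_t110 A5_c0_t111

theorem A5_c0_t108 : CovD 1 gA5 [(261134745600, 13744209920), (687195291648, 27487895552), (5497558138880, 5497558138880)] :=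
  covD_split 2 (by decide +kernel) A5_c0_t109 A5_c0_t112

theorem A5_c0_t114 : CovD 1 gA5 [(261134745600, 13744209920), (742171082752, 27487895552), (2748779069440, 2748779069440)] :=
  covD_split 2 (by decide +kernel) A5_c0_t115 A5_c0_t116

theorem A5_c0_t113 : CovD 1 gA5 [(261134745600, 13744209920), (742171082752, 27487895552), (5497558138880, 5497558138880)] :=
  covD_split 2 (by decide +kernel) A5_c0_t114 A5_c0_t117

theorem A5_c0_t107 : CovD 1 gA5 [(261134745600, 13744209920), (714683187200, 54975791104), (5497558138880, 5497558138880)] :=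
  covD_split 1 (by decide +kernel) A5_c0_t108 A5_c0_t113

theorem A5_c0_t119 : CovD 1 gA5 [(261134745600, 13744209920), (797146873856, 27487895552), (5497558138880, 5497558138880)] :=
  covD_split 2 (by decide +kernel) A5_c0_t120 A5_c0_t121

theorem A5_c0_t122 : CovD 1 gA5 [(261134745600, 13744209920), (852122664960, 27487895552), (5497558138880, 5497558138880)] :=
  covD_split 2 (by decide +kernel) A5_c0_t123 A5_c0_t124

theorem A5_c0_t118 : CovD 1 gA5 [(261134745600, 13744209920), (824634769408, 54975791104), (5497558138880, 5497558138880)] :=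
  covD_split 1 (by decide +kernel) A5_c0_t119 A5_c0_t122

theorem A5_c0_t106 : CovD 1 gA5 [(261134745600, 13744209920), (769658978304, 109951582208), (5497558138880, 5497558138880)] :=
  covD_split 1 (by decide +kernel) A5_c0_t107 A5_c0_t118

theorem A5_c0_t86 : CovD 1 gA5 [(247390535680, 27488419840), (769658978304, 109951582208), (5497558138880, 5497558138880)] :=
  covD_split 0 (by decide +kernel) A5_c0_t87 A5_c0_t106

theorem A5_c0 : CovD 1 gA5 [(247390535680, 27488419840), (659707396096, 219903164416), (5497558138880, 5497558138880)] :=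
  covD_split 1 (by decide +kernel) A5_c0_t1 A5_c0_t86

theorem B5_c0_t1 : CovD 1 gB5 [(233646325760, 13744209920), (659707396096, 219903164416), (54975791104, 54975791104)] :=
  covD_split 1 (by decide +kernel) B5_c0_t2 B5_c0_t3

theorem B5_c0 : CovD 1 gB5 [(247390535680, 27488419840), (659707396096, 219903164416), (54975791104, 54975791104)] :=
  covD_split 0 (by decide +kernel) B5_c0_t1 B5_c0_t4

end Pool.Agent.helper14.NR.E4c
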