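import Pool.Agent.helper63.NF.Cert

/-!
Generated: table E4c.
-/

namespace Pool.Agent.helper14.NR.E4c

open Pool.Agent.helper63.NF

def tab : TD where
  strip := false
  bm := none
  ec := 247497490432
  bc := 661424963584
  H := [[[62261002752, 71664129728, -56965120448, 27171463232], [252775761920, 21558294016, -21711637120], [-151907383168, -1561896228288], [-3008233351040]], [[13801791424, -40357320320, 9320232512], [6407891392, -127116447168], [-139662929984]], [[-11889283456, 4600550848], [-21809964928]], [[2076582720]], [[-150234240]]]
  pol := none
  a := [[[43455676416, 44221202432, 154190217216, -829479059456], [-292474322944, -671176785920]], [[43664408576, 12903841792, 2268987392, -383160942592], [-40717778944, -83139559424]], [[40051933184, 40589328384, 62703206400, -992508379136], [-118099476480, -771070754816]], [[33220853760, 77462634496, 278064136192, -1983060115456], [-196756307968, -154128875520]], [[49144922112, 75738710016, 377570918400, -2117842239488], [-182706307072, -142035910656]], [[83050692608, 60695642112, 287997624320, -1803000676352], [-31819890688, -300815220736]]]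
  j := [-2611340115968, 1924145348608, 3573412790272, 4123168604160, 5360119185408, 6597069766656]
  c := [879662989312, 879662989312, 659814350848, 549755813888, 439697276928, 329907175424]
  M := [[[[1156222812160, 419344482304, 290673917952], [826104348672, 2565556142080], [-1495594172416]], [[848866967552, -13796376576], [3657396125696]], [[143749480448, -131039428608], [-7544714362880]], [[-1364754300928]], [[1276704260096]], [[-660335951872]]], [[[1148430712832, 314535968768, 341112848384], [881088331776]], [[183582654464, 18802409472], [682063495168]], [[-13347061760]], [[423362560]]], [[[1151357878272, 279277731840, 303911272448], [792957943808]], [[173509246976, 28033613824], [716712706048]], [[-8182104064]], [[-283312128]]], [[[1155709796352, 276375928832, 300338118656], [788051263488]], [[164612866048, 27011776512], [713959931904]], [[-3883597824]], [[-897384448]]], [[[1157399838720, 281709772800, 288941473792], [710561431552]], [[160695975936, 23494524928], [752682467328]], [[-1273036800]], [[-1392115712]]], [[[1151728484352, 350727372800, 322395176960], [-344497717248]], [[157872553984, -10490150912], [1272488132608]], [[2341535744]], [[-1942224896]]]]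
  l0 := [[[4042042251072, -402238020352, -321479374144], [2840041312576, -4247412504384], [-43827411755776]], [[-1699820992576, 40764499968, 40588245248], [-17952709463744, -98811212672], [-30352705192512]], [[-511429033024, 220239181056], [3600423424640]], [[1362695788096, -134767823616], [4304452541440]], [[-2188691287488, 304853364288], [10166655529536]], [[3275745309888]], [[-2117094645632]], [[1038838401344]]]
  q0 := [[592482624960, 977430764096, -157206796544, 181960702144], [2877013504960, 1936631509760, -3545345443520], [-4573868881408, -19751403958272], [-49721545128896]]
  t := [[[2086168887296, 978895831040, -1426389139456, 9473265041408], [5628798435328, 8249538052096]], [[1491167608832, 766191140864, -1824319864832, 10083170910208], [4419591208960, 10295495884800]], [[1202096046080, 853089124352, -1716684324864, 4952724340736], [2859209129984, 4408499568640]], [[977765269504, 1212627943424, 401163485184, -5262259126272], [1272709578752, 2850964242432]], [[1045963341824, 1763153543168, 3707079098368, -7383877484544], [1919865585664, 9213986209792]], [[1738406821888, 3943956742144, 7205657247744, -7867041251328], [10450298273792, 37813721169920]]]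
  y := [29124173234176, 10663330054144, 4927401230336, 2537251930112, 1380831985664, 762356695040]
  sc := [0, 0, 0, 0, 0, 0]
  L := [(0, 2), (0, 3), (1, 1), (1, 2), (2, 0), (2, 1), (3, 0)]
  Lt := [(0, 2), (0, 3), (1, 1)]
  far := 1
  x2 := 10775213113344
  B1 := 659706347520
  C2 := 1327712154624
  f1 := 769658138624
  f2 := 0
  f3 := 0
  is1 := 8796093022208
  s1 := 137438953472

end Pool.Agent.helper14.NR.E4c
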